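import Pool.Agent.Lib.MP_278fbd_co.HR.Stm

/-!
# MP_278fbd_co, project HR, piece as: from the dense form to the asymptotic form
-/

set_option autoImplicit false

namespace Pool.Agent.MP_278fbd_co.HR

open Finset

theorem p_as : S_as := by
  intro c hD α hα ε hε
  obtain ⟨K, n₀, h⟩ := hD α hα ε hε
  refine ⟨n₀, ?_⟩
  intro V _ G hG hn r hr hdeg
  obtain ⟨X, k, C, _, hk, hC, hdis⟩ := h V G hG hn r hr hdeg
  refine ⟨k, C, hk, fun l => (hC l).1, fun l => ?_⟩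
  obtain ⟨_, _, x, ⟨hx1, hx2⟩, hx3⟩ := hC l
  have hsub : ((C l : Set V) ∩ ⋃ i : Fin k, ⋃ (_ : i < l), (C i : Set V)) ⊆ {x} := by
    rintro v ⟨hv1, hv2⟩
    simp only [Set.mem_iUnion] at hv2
    obtain ⟨i, hi, hvi⟩ := hv2
    have hvX : v ∈ X := hdis l i (ne_of_gt hi) v hv1 hvi
    exact hx3 v ⟨hv1, hvX⟩
  calc ((C l : Set V) ∩ ⋃ i : Fin k, ⋃ (_ : i < l), (C i : Set V)).ncard
      ≤ ({x} : Set V).ncard := Set.ncard_le_ncard hsub (Set.finite_singleton x)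
    _ = 1 := Set.ncard_singleton x

end Pool.Agent.MP_278fbd_co.HR
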