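import Pool.Agent.Lib.MP_278fbd_co.HR.Stm

/-!
# MP_278fbd_co, project HR, piece av: a vertex with a small ball
-/

set_option autoImplicit false

namespace Pool.Agent.MP_278fbd_co.HR

open Finset

theorem p_av : S_av := by
  classical
  intro V _ hne G z a hz hC
  set M := ∑ u, z u with hMdef
  by_cases hM : M = 0
  · obtain ⟨v⟩ := hne
    exact ⟨v, Or.inl hM⟩
  by_contra hcon
  push Not at hcon
  let P : V → V → ℝ := fun v u => min (z u) (max 0 (1 / 2 - a v u))
  have hP : ∀ v, FF z (a v) (1 / 2) = ∑ u, P v u := fun v => rfl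
  have hPz : ∀ v u, P v u ≤ z u := fun v u => min_le_left _ _
  have hP0 : ∀ v u, 1 / 2 ≤ a v u → P v u = 0 := by
    intro v u h
    show min (z u) (max 0 (1 / 2 - a v u)) = 0
    rw [max_eq_left (by linarith), min_eq_right (hz u)]
  have hPle : ∀ v u, a v u < 1 / 2 → P v u ≤ 1 / 2 - a v u := by
    intro v u h
    show min (z u) (max 0 (1 / 2 - a v u)) ≤ _
    rw [max_eq_right (by linarith)]
    exact min_le_right _ _
  have hPnn : ∀ v u, 0 ≤ P v u := fun v u => le_min (hz u) (le_max_left _ _)
  have hpair : ∀ v u, z v * P v u + z u * P u v ≤ z v * z u - (if v = u then z v ^ 2 else 0) := by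
    intro v u
    by_cases hvu : v = u
    · subst hvu
      rw [if_pos rfl, hP0 v v (by linarith [hC.self v])]
      nlinarith
    · rw [if_neg hvu, sub_zero]
      rcases le_or_gt (1 / 2) (a v u) with h1 | h1
      · rw [hP0 v u h1]
        nlinarith [mul_le_mul_of_nonneg_left (hPz u v) (hz u)]
      · rcases le_or_gt (1 / 2) (a u v) with h2 | h2
        · rw [hP0 u v h2]
          nlinarith [mul_le_mul_of_nonneg_left (hPz v u) (hz v)]
        · have h3 := hPle v u h1
          have h4 := hPle u v h2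
          have h5 := hC.pair v u hvu
          have h6 : P v u + P u v ≤ min (z v) (z u) := by linarith
          rcases le_total (z v) (z u) with h7 | h7
          · rw [min_eq_left h7] at h6
            nlinarith [hPnn v u, hPnn u v, hz v, hz u]
          · rw [min_eq_right h7] at h6
            nlinarith [hPnn v u, hPnn u v, hz v, hz u]
  have hsum : ∑ v, ∑ u, (z v * P v u + z u * P u v) ≤
      ∑ v, ∑ u, (z v * z u - (if v = u then z v ^ 2 else 0)) :=
    Finset.sum_le_sum fun v _ => Finset.sum_le_sum fun u _ => hpair v u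
  have h1 : ∑ v, ∑ u, (z v * P v u + z u * P u v) = 2 * ∑ v, z v * FF z (a v) (1 / 2) := by
    have e1 : ∑ v, ∑ u, z v * P v u = ∑ v, z v * FF z (a v) (1 / 2) := by
      refine Finset.sum_congr rfl fun v _ => ?_
      rw [hP, Finset.mul_sum]
    have e2 : ∑ v, ∑ u, z u * P u v = ∑ v, z v * FF z (a v) (1 / 2) := by
      rw [Finset.sum_comm]
      exact e1
    simp only [Finset.sum_add_distrib]
    rw [e1, e2, two_mul]
  have h2 : ∑ v, ∑ u, (z v * z u - (if v = u then z v ^ 2 else 0)) = M ^ 2 - ∑ v, z v ^ 2 := by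
    simp only [Finset.sum_sub_distrib]
    congr 1
    · rw [pow_two, hMdef, Finset.sum_mul]
      exact Finset.sum_congr rfl fun v _ => by rw [Finset.mul_sum]
    · exact Finset.sum_congr rfl fun v _ => by simp
  have h3 : M * (M / 2) ≤ ∑ v, z v * FF z (a v) (1 / 2) := by
    rw [hMdef, Finset.sum_mul]
    exact Finset.sum_le_sum fun v _ => mul_le_mul_of_nonneg_left (hcon v).2 (hz v)
  rw [h1, h2] at hsum
  have h4 : ∑ v, z v ^ 2 ≤ 0 := by nlinarith
  have h5 : ∑ v, z v ^ 2 = 0 := le_antisymm h4 (Finset.sum_nonneg fun v _ => sq_nonneg _)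
  have h6 := (Finset.sum_eq_zero_iff_of_nonneg fun v _ => sq_nonneg (z v)).1 h5
  apply hM
  rw [hMdef]
  exact Finset.sum_eq_zero fun v hv => by
    have := h6 v hv
    simpa using this

end Pool.Agent.MP_278fbd_co.HR
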