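import Pool.Agent.Lib.MP_278fbd_co.HR.Stm

set_option autoImplicit false

/-! Piece [HR ax]: the costs of the cheapest walks. -/

namespace Pool.Agent.MP_278fbd_co.HR

open Finset

/-- The possible costs. -/
private def ax_T {V : Type} (G : Digraph V) (z : V → ℝ) (v u : V) : Set ℝ :=
  {c | c = 1 ∨ ∃ l : List V, (v :: (l ++ [u])).IsChain G.Adj ∧ c = (l.map z).sum}

private theorem ax_sum_nonneg {V : Type} {z : V → ℝ} (hz : ∀ v, 0 ≤ z v) (l : List V) :
    0 ≤ (l.map z).sum := by
  apply List.sum_nonneg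
  intro x hx
  rw [List.mem_map] at hx
  obtain ⟨v, -, rfl⟩ := hx
  exact hz v

private theorem ax_nonneg {V : Type} {G : Digraph V} {z : V → ℝ} (hz : ∀ v, 0 ≤ z v) {v u : V}
    {c : ℝ} (hc : c ∈ ax_T G z v u) : 0 ≤ c := by
  rcases hc with h | ⟨l, -, h⟩
  · rw [h]; norm_num
  · rw [h]; exact ax_sum_nonneg hz l

private theorem ax_bdd {V : Type} {G : Digraph V} {z : V → ℝ} (hz : ∀ v, 0 ≤ z v) (v u : V) :
    BddBelow (ax_T G z v u) := ⟨0, fun _ hc => ax_nonneg hz hc⟩

private theorem ax_one {V : Type} (G : Digraph V) (z : V → ℝ) (v u : V) :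
    (1 : ℝ) ∈ ax_T G z v u := Or.inl rfl

private theorem ax_ne {V : Type} (G : Digraph V) (z : V → ℝ) (v u : V) :
    (ax_T G z v u).Nonempty := ⟨1, ax_one G z v u⟩

/-- Concatenation of walks. -/
private theorem ax_cat {V : Type} {G : Digraph V} {v u w : V} {l l' : List V}
    (h : (v :: (l ++ [u])).IsChain G.Adj) (h' : (u :: (l' ++ [w])).IsChain G.Adj) :
    (v :: ((l ++ u :: l') ++ [w])).IsChain G.Adj := by
  have e1 : v :: ((l ++ u :: l') ++ [w]) = (v :: l) ++ u :: (l' ++ [w]) := by simp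
  have e2 : v :: (l ++ [u]) = (v :: l) ++ u :: [] := by simp
  rw [e1, List.isChain_split]
  rw [e2, List.isChain_split] at h
  exact ⟨h.1, h'⟩

theorem p_ax (h_cw : S_cw) : S_ax := by
  intro V G z hG hz hC
  have hcl := h_cw V G z hG hz hC
  refine ⟨fun v u => sInf (ax_T G z v u), ?_, ?_, ?_, ?_, ?_⟩
  · intro v u
    exact le_csInf (ax_ne G z v u) fun c hc => ax_nonneg hz hc
  · intro v u hvu
    apply le_antisymm
    · apply csInf_le (ax_bdd hz v u)
      refine Or.inr ⟨[], ?_, ?_⟩
      · simpa using hvu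
      · simp
    · exact le_csInf (ax_ne G z v u) fun c hc => ax_nonneg hz hc
  · intro v u w huw
    rw [← sub_le_iff_le_add]
    apply le_csInf (ax_ne G z v u)
    intro c hc
    rw [sub_le_iff_le_add]
    rcases hc with h | ⟨l, hl, h⟩
    · have h1 : sInf (ax_T G z v w) ≤ 1 := csInf_le (ax_bdd hz v w) (ax_one G z v w)
      have h2 := hz u
      rw [h]
      linarith
    · apply csInf_le (ax_bdd hz v w)
      refine Or.inr ⟨l ++ u :: [], ax_cat hl (l' := []) (by simpa using huw), ?_⟩
      rw [h]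
      simp
  · intro v
    apply le_csInf (ax_ne G z v v)
    intro c hc
    rcases hc with h | ⟨l, hl, h⟩
    · rw [h]
    · rw [h]
      exact hcl l v hl
  · intro v u _
    have key : ∀ c ∈ ax_T G z v u, ∀ c' ∈ ax_T G z u v, 1 - min (z v) (z u) ≤ c + c' := by
      intro c hc c' hc'
      have hc0 := ax_nonneg hz hc
      have hc0' := ax_nonneg hz hc'
      have hm : 0 ≤ min (z v) (z u) := le_min (hz v) (hz u)
      rcases hc with h | ⟨l, hl, h⟩
      · rw [h]; linarith
      · rcases hc' with h' | ⟨l', hl', h'⟩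
        · rw [h']; linarith
        · have h1 := hcl _ v (ax_cat hl hl')
          have h2 := hcl _ u (ax_cat hl' hl)
          rw [List.map_append, List.sum_append, List.map_cons, List.sum_cons, ← h, ← h'] at h1 h2
          rcases min_choice (z v) (z u) with h3 | h3 <;> rw [h3] <;> linarith
    show 1 - min (z v) (z u) ≤ sInf (ax_T G z v u) + sInf (ax_T G z u v)
    rw [← sub_le_iff_le_add]
    apply le_csInf (ax_ne G z v u)
    intro c hc
    rw [sub_le_comm]
    apply le_csInf (ax_ne G z u v)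
    intro c' hc'
    have := key c hc c' hc'
    linarith

end Pool.Agent.MP_278fbd_co.HR

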