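import Pool.Agent.Lib.MP_278fbd_co.HR.Stm

/-!
# MP_278fbd_co, project HR: piece ch

Degrees in the sample (Chebyshev).
-/

set_option autoImplicit false

namespace Pool.Agent.MP_278fbd_co.HR

open Finset

private theorem ch_c3 (h_cnt : S_cnt) {V : Type} [Fintype V] [Nonempty V] {q : ℕ}
    (φ : V → V → ℝ) (hφ : ∀ v, ∑ w, φ v w = 0) (i j k : Fin q) (hij : i ≠ j) (hik : i ≠ k)
    (hjk : j ≠ k) : ∑ f : Fin q → V, φ (f i) (f j) * φ (f i) (f k) = 0 := by
  have hn : (0 : ℝ) < Fintype.card V := by exact_mod_cast Fintype.card_pos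
  have hinj : Function.Injective (![k, i, j] : Fin 3 → Fin q) := by
    intro a b hab
    fin_cases a <;> fin_cases b
    · rfl
    · exact absurd hab hik.symm
    · exact absurd hab hjk.symm
    · exact absurd hab hik
    · rfl
    · exact absurd hab hij
    · exact absurd hab hjk
    · exact absurd hab hij.symm
    · rfl
  have h := h_cnt V q 3 ![k, i, j] hinj (fun g => φ (g 1) (g 2) * φ (g 1) (g 0))
  have h1 : ∑ g : Fin 3 → V, φ (g 1) (g 2) * φ (g 1) (g 0) = 0 := by
    rw [← (Fin.consEquiv (fun _ : Fin 3 => V)).sum_comp, Fintype.sum_prod_type, Finset.sum_comm]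
    refine Finset.sum_eq_zero fun g _ => ?_
    have h2 : ∀ w : V, φ ((Fin.consEquiv (fun _ : Fin 3 => V)) (w, g) 1)
        ((Fin.consEquiv (fun _ : Fin 3 => V)) (w, g) 2) *
        φ ((Fin.consEquiv (fun _ : Fin 3 => V)) (w, g) 1)
        ((Fin.consEquiv (fun _ : Fin 3 => V)) (w, g) 0) = φ (g 0) (g 1) * φ (g 0) w :=
      fun w => rfl
    rw [Finset.sum_congr rfl (fun w _ => h2 w), ← Finset.mul_sum, hφ, mul_zero]
  rw [h1, zero_mul] at h
  have h3 := (mul_eq_zero.1 h).resolve_right (pow_pos hn 3).ne'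
  exact h3

private theorem ch_sq (h_cnt : S_cnt) {V : Type} [Fintype V] [Nonempty V] {q : ℕ}
    (φ : V → V → ℝ) (hφ : ∀ v, ∑ w, φ v w = 0) (hb : ∀ v w, φ v w * φ v w ≤ 1) (i : Fin q) :
    ∑ f : Fin q → V, (∑ j, if j = i then 0 else φ (f i) (f j)) *
      (∑ j, if j = i then 0 else φ (f i) (f j)) ≤ q * (Fintype.card V : ℝ) ^ q := by
  have h1 : ∀ f : Fin q → V, (∑ j, if j = i then 0 else φ (f i) (f j)) *
      (∑ j, if j = i then 0 else φ (f i) (f j)) =
      ∑ j, ∑ k, (if j = i then 0 else φ (f i) (f j)) * (if k = i then 0 else φ (f i) (f k)) :=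
    fun f => Finset.sum_mul_sum _ _ _ _
  rw [Finset.sum_congr rfl (fun f _ => h1 f), Finset.sum_comm]
  have h2 : ∀ j : Fin q, ∑ f : Fin q → V, ∑ k, (if j = i then 0 else φ (f i) (f j)) *
      (if k = i then 0 else φ (f i) (f k)) ≤ (Fintype.card V : ℝ) ^ q := by
    intro j
    rw [Finset.sum_comm, Finset.sum_eq_single j]
    · have h3 : ∀ f : Fin q → V, (if j = i then 0 else φ (f i) (f j)) *
          (if j = i then 0 else φ (f i) (f j)) ≤ (1 : ℝ) := by
        intro f
        split_ifs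
        · norm_num
        · exact hb _ _
      refine (Finset.sum_le_sum fun f _ => h3 f).trans ?_
      rw [Finset.sum_const, card_univ, Fintype.card_fun, Fintype.card_fin, nsmul_eq_mul, mul_one]
      push_cast
      exact le_refl _
    · intro k _ hkj
      by_cases hj : j = i
      · refine Finset.sum_eq_zero fun f _ => ?_
        rw [if_pos hj, zero_mul]
      · by_cases hk : k = i
        · refine Finset.sum_eq_zero fun f _ => ?_
          rw [if_pos hk, mul_zero]
        · rw [Finset.sum_congr rfl (fun f _ => by rw [if_neg hj, if_neg hk])]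
          exact ch_c3 h_cnt φ hφ i j k (Ne.symm hj) (Ne.symm hk) (Ne.symm hkj)
    · intro h
      exact absurd (mem_univ _) h
  refine (Finset.sum_le_sum fun j _ => h2 j).trans ?_
  rw [Finset.sum_const, card_univ, Fintype.card_fin, nsmul_eq_mul]

theorem p_ch (h_cnt : S_cnt) : S_ch := by
  classical
  intro q e he hq V _ _ G r hG hr
  have hn : (0 : ℝ) < Fintype.card V := by exact_mod_cast Fintype.card_pos
  have hq0 : (0 : ℝ) < q := by
    rcases Nat.eq_zero_or_pos q with h | h
    · rw [h, Nat.cast_zero, mul_zero] at hq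
      exact absurd hq (by norm_num)
    · exact_mod_cast h
  set n : ℝ := (Fintype.card V : ℝ) with hnd
  -- the degrees
  have hD : ∀ v, (({w | G.Adj v w}.ncard : ℕ) : ℝ) = ∑ w, (if G.Adj v w then (1 : ℝ) else 0) := by
    intro v
    rw [Finset.sum_boole, Set.ncard_eq_toFinset_card', Set.toFinset_ofPred]
  have hDn : ∀ v, (({w | G.Adj v w}.ncard : ℕ) : ℝ) ≤ n := by
    intro v
    have h1 : {w | G.Adj v w}.ncard ≤ Fintype.card V := by
      rw [← Nat.card_eq_fintype_card]
      exact Set.ncard_le_card _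
    rw [hnd]
    exact_mod_cast h1
  obtain ⟨φ, hφd⟩ : ∃ φ : V → V → ℝ, φ = fun v w =>
    (if G.Adj v w then (1 : ℝ) else 0) - (({w | G.Adj v w}.ncard : ℕ) : ℝ) / n := ⟨_, rfl⟩
  have hφ : ∀ v, ∑ w, φ v w = 0 := by
    intro v
    rw [hφd]
    simp only
    rw [Finset.sum_sub_distrib, ← hD, Finset.sum_const, card_univ, nsmul_eq_mul, ← hnd,
      mul_div_cancel₀ _ hn.ne', sub_self]
  have hb : ∀ v w, φ v w * φ v w ≤ 1 := by
    intro v w
    rw [hφd]
    simp only
    have h1 : 0 ≤ (({w | G.Adj v w}.ncard : ℕ) : ℝ) / n := by positivity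
    have h2 : (({w | G.Adj v w}.ncard : ℕ) : ℝ) / n ≤ 1 := by
      rw [div_le_one hn]
      exact hDn v
    split_ifs
    · nlinarith
    · nlinarith
  -- the bad indices
  have hbad : ∀ (f : Fin q → V) (i : Fin q),
      (({j : Fin q | G.Adj (f i) (f j)}.ncard : ℕ) : ℝ) < (r / n - e) * q →
      (e * q / 2) * (e * q / 2) ≤ (∑ j, if j = i then 0 else φ (f i) (f j)) *
        (∑ j, if j = i then 0 else φ (f i) (f j)) := by
    intro f i h
    have h1 : (∑ j, if j = i then 0 else φ (f i) (f j)) =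
        (({j : Fin q | G.Adj (f i) (f j)}.ncard : ℕ) : ℝ) -
          (q - 1) * ((({w | G.Adj (f i) w}.ncard : ℕ) : ℝ) / n) := by
      have h2 : ∀ j : Fin q, (if j = i then 0 else φ (f i) (f j)) =
          (if G.Adj (f i) (f j) then (1 : ℝ) else 0) -
          ((({w | G.Adj (f i) w}.ncard : ℕ) : ℝ) / n -
          (if j = i then (({w | G.Adj (f i) w}.ncard : ℕ) : ℝ) / n else 0)) := by
        intro j
        by_cases hj : j = i
        · rw [if_pos hj, if_pos hj, hj, if_neg (hG _)]
          ring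
        · rw [if_neg hj, if_neg hj, hφd]
          ring
      rw [Finset.sum_congr rfl (fun j _ => h2 j), Finset.sum_sub_distrib,
        Finset.sum_sub_distrib, Finset.sum_ite_eq' univ i, if_pos (mem_univ _),
        Finset.sum_boole, Finset.sum_const, card_univ, Fintype.card_fin, nsmul_eq_mul,
        Set.ncard_eq_toFinset_card' {j : Fin q | G.Adj (f i) (f j)}, Set.toFinset_ofPred]
      ring
    have h3 : (r : ℝ) / n ≤ (({w | G.Adj (f i) w}.ncard : ℕ) : ℝ) / n := by
      apply div_le_div_of_nonneg_right _ hn.le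
      exact_mod_cast hr (f i)
    have h4 : (({w | G.Adj (f i) w}.ncard : ℕ) : ℝ) / n ≤ 1 := by
      rw [div_le_one hn]
      exact hDn _
    have hq1 : (1 : ℝ) ≤ q := by
      have : 0 < q := by exact_mod_cast hq0
      exact_mod_cast this
    have h5 : (∑ j, if j = i then 0 else φ (f i) (f j)) ≤ -(e * q / 2) := by
      rw [h1]
      have h6 : ((q : ℝ) - 1) * (r / n) ≤
          ((q : ℝ) - 1) * ((({w | G.Adj (f i) w}.ncard : ℕ) : ℝ) / n) :=
        mul_le_mul_of_nonneg_left h3 (by linarith)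
      nlinarith
    have h7 : 0 ≤ e * q / 2 := by positivity
    nlinarith
  -- the number of the bad indices
  obtain ⟨B, hB⟩ : ∃ B : (Fin q → V) → ℝ, B = fun f =>
    (({i : Fin q | (({j : Fin q | G.Adj (f i) (f j)}.ncard : ℕ) : ℝ) <
      (r / n - e) * q}.ncard : ℕ) : ℝ) := ⟨_, rfl⟩
  have hB0 : ∀ f, 0 ≤ B f := by
    intro f
    rw [hB]
    positivity
  have hBs : ∀ f, B f * ((e * q / 2) * (e * q / 2)) ≤
      ∑ i, (∑ j, if j = i then 0 else φ (f i) (f j)) *
        (∑ j, if j = i then 0 else φ (f i) (f j)) := by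
    intro f
    have h1 : B f = ∑ i : Fin q, (if (({j : Fin q | G.Adj (f i) (f j)}.ncard : ℕ) : ℝ) <
      (r / n - e) * q then (1 : ℝ) else 0) := by
      rw [hB]
      simp only
      rw [Finset.sum_boole, Set.ncard_eq_toFinset_card', Set.toFinset_ofPred]
    rw [h1, Finset.sum_mul]
    refine Finset.sum_le_sum fun i _ => ?_
    split_ifs with h
    · rw [one_mul]
      exact hbad f i h
    · rw [zero_mul]
      exact mul_self_nonneg _
  have hsum : (∑ f, B f) * ((e * q / 2) * (e * q / 2)) ≤ q * (q * n ^ q) := by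
    rw [Finset.sum_mul]
    refine (Finset.sum_le_sum fun f _ => hBs f).trans ?_
    rw [Finset.sum_comm]
    refine (Finset.sum_le_sum fun i _ => ch_sq h_cnt φ hφ hb i).trans ?_
    rw [Finset.sum_const, card_univ, Fintype.card_fin, nsmul_eq_mul]
  have hN : (({f : Fin q → V | e * q < B f}.ncard : ℕ) : ℝ) * (e * q) ≤ ∑ f, B f := by
    have h1 : (({f : Fin q → V | e * q < B f}.ncard : ℕ) : ℝ) =
        ∑ f : Fin q → V, (if e * q < B f then (1 : ℝ) else 0) := by
      rw [Finset.sum_boole, Set.ncard_eq_toFinset_card', Set.toFinset_ofPred]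
    rw [h1, Finset.sum_mul]
    refine Finset.sum_le_sum fun f _ => ?_
    split_ifs with h
    · rw [one_mul]
      exact h.le
    · rw [zero_mul]
      exact hB0 f
  have hgoal : (({f : Fin q → V | e * q < B f}.ncard : ℕ) : ℝ) ≤ 4 / (e ^ 3 * q) * n ^ q := by
    have heq : 0 < e * q := by positivity
    have h1 : (({f : Fin q → V | e * q < B f}.ncard : ℕ) : ℝ) * (e * q) *
        ((e * q / 2) * (e * q / 2)) ≤ q * (q * n ^ q) :=
      (mul_le_mul_of_nonneg_right hN (by positivity)).trans hsum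
    rw [div_mul_eq_mul_div, le_div_iff₀ (by positivity)]
    have h2 : (({f : Fin q → V | e * q < B f}.ncard : ℕ) : ℝ) * (e ^ 3 * q) * (q * q) ≤
        4 * n ^ q * (q * q) := by
      nlinarith
    exact le_of_mul_le_mul_right h2 (by positivity)
  rw [hB] at hgoal
  exact hgoal

end Pool.Agent.MP_278fbd_co.HR
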