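import Pool.Agent.Lib.MP_278fbd_co.HR.Stm

set_option autoImplicit false

namespace Pool.Agent.MP_278fbd_co.HR

theorem p_cnt : S_cnt := by
  classical
  intro V _ q m e he φ
  set p : Fin q → Prop := fun j => j ∈ Set.range e with hp
  let E : Fin m ≃ {j // p j} := Equiv.ofInjective e he
  have h1 : ∑ f : Fin q → V, φ (fun a => f (e a))
      = ∑ x : ({j // p j} → V) × ({j // ¬ p j} → V), φ (fun a => x.1 (E a)) := by
    refine Fintype.sum_equiv (Equiv.piEquivPiSubtypeProd p (fun _ => V)) _ _ ?_
    intro f
    rfl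
  have h2 : ∑ g : Fin m → V, φ g = ∑ g : {j // p j} → V, φ (fun a => g (E a)) := by
    refine (Fintype.sum_equiv (Equiv.arrowCongr E.symm (Equiv.refl V)) _ _ ?_).symm
    intro g
    rfl
  have hm : Fintype.card {j // p j} = m := by
    rw [← Fintype.card_congr E, Fintype.card_fin]
  have hq : Fintype.card {j // p j} + Fintype.card {j // ¬ p j} = q := by
    rw [Fintype.card_subtype_compl, Fintype.card_fin]
    have : Fintype.card {j // p j} ≤ q := by
      have := Fintype.card_subtype_le p
      simpa using this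
    omega
  rw [h1, h2, Fintype.sum_prod_type]
  simp only [Finset.sum_const, Finset.card_univ, nsmul_eq_mul]
  rw [← Finset.mul_sum, Fintype.card_fun]
  push_cast
  rw [hm] at hq
  have hpow : (Fintype.card V : ℝ) ^ q
      = (Fintype.card V : ℝ) ^ m * (Fintype.card V : ℝ) ^ Fintype.card {j // ¬ p j} := by
    rw [← pow_add, hq]
  rw [hpow]
  ring

end Pool.Agent.MP_278fbd_co.HR
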