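import Pool.Agent.Lib.MP_278fbd_co.HR.Stm

/-!
# MP_278fbd_co, project HR, piece cw: closed walks
-/

set_option autoImplicit false

namespace Pool.Agent.MP_278fbd_co.HR

theorem cw_dup {V : Type} : ∀ l : List V, ¬ l.Nodup →
    ∃ (l₁ : List V) (a : V) (l₂ l₃ : List V), l = l₁ ++ a :: (l₂ ++ a :: l₃)
  | [], h => absurd List.nodup_nil h
  | b :: t, h => by
    by_cases hb : b ∈ t
    · obtain ⟨l₂, l₃, h2⟩ := List.append_of_mem hb
      exact ⟨[], b, l₂, l₃, by rw [h2]; rfl⟩
    · have ht : ¬ t.Nodup := fun h3 => h (List.nodup_cons.mpr ⟨hb, h3⟩)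
      obtain ⟨l₁, a, l₂, l₃, h4⟩ := cw_dup t ht
      exact ⟨b :: l₁, a, l₂, l₃, by rw [h4]; rfl⟩

theorem cw_nn {V : Type} (z : V → ℝ) (hz : ∀ v, 0 ≤ z v) (l : List V) : 0 ≤ (l.map z).sum := by
  apply List.sum_nonneg
  intro x hx
  obtain ⟨v, -, rfl⟩ := List.mem_map.mp hx
  exact hz v

theorem cw_chain {V : Type} (R : V → V → Prop) (l₁ : List V) (a : V) (l₂ l₃ : List V)
    (h : (l₁ ++ a :: (l₂ ++ a :: l₃)).IsChain R) : (l₁ ++ a :: l₃).IsChain R := by
  have h1 := (List.isChain_split (l₁ := l₁) (c := a) (l₂ := l₂ ++ a :: l₃)).mp h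
  have h2 : ((a :: l₂) ++ a :: l₃).IsChain R := by simpa using h1.2
  have h3 := (List.isChain_split (l₁ := a :: l₂) (c := a) (l₂ := l₃)).mp h2
  exact (List.isChain_split (l₁ := l₁) (c := a) (l₂ := l₃)).mpr ⟨h1.1, h3.2⟩

theorem p_cw : S_cw := by
  intro V G z hG hz hcyc
  have main : ∀ (n : ℕ) (l : List V) (v : V), l.length = n →
      (v :: (l ++ [v])).IsChain G.Adj → 1 ≤ (l.map z).sum := by
    intro n
    induction n using Nat.strong_induction_on with
    | _ n ih =>
      intro l v hl hch
      by_cases hn : (v :: l).Nodup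
      · by_cases hl0 : l = []
        · subst hl0
          simp only [List.nil_append, List.isChain_cons_cons] at hch
          exact absurd hch.1 (hG v)
        · exact hcyc v l ⟨hl0, hn, hch⟩
      · obtain ⟨l₁, a, l₂, l₃, h1⟩ := cw_dup _ hn
        cases l₁ with
        | nil =>
          simp only [List.nil_append, List.cons.injEq] at h1
          obtain ⟨rfl, h2⟩ := h1
          have h3 : (v :: (l₂ ++ v :: (l₃ ++ [v]))).IsChain G.Adj := by
            have : v :: (l ++ [v]) = v :: (l₂ ++ v :: (l₃ ++ [v])) := by rw [h2]; simp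
            rw [← this]; exact hch
          have h4 := (List.isChain_split (l₁ := v :: l₂) (c := v) (l₂ := l₃ ++ [v])).mp
            (by simpa using h3)
          have h5 := ih l₂.length (by rw [← hl, h2]; simp) l₂ v rfl (by simpa using h4.1)
          rw [h2, List.map_append, List.sum_append, List.map_cons, List.sum_cons]
          have := cw_nn z hz l₃
          have := hz v
          linarith
        | cons b l₁ =>
          simp only [List.cons_append, List.cons.injEq] at h1
          obtain ⟨rfl, h2⟩ := h1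
          have h3 : ((v :: l₁) ++ a :: (l₂ ++ a :: (l₃ ++ [v]))).IsChain G.Adj := by
            have : v :: (l ++ [v]) = (v :: l₁) ++ a :: (l₂ ++ a :: (l₃ ++ [v])) := by
              rw [h2]; simp
            rw [← this]; exact hch
          have h4 := cw_chain _ _ _ _ _ h3
          have h5 := ih (l₁ ++ a :: l₃).length (by rw [← hl, h2]; simp) (l₁ ++ a :: l₃) v rfl
            (by simpa using h4)
          rw [h2]
          simp only [List.map_append, List.sum_append, List.map_cons, List.sum_cons] at h5 ⊢
          have := cw_nn z hz l₂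
          have := hz a
          linarith
  intro l v h
  exact main _ l v rfl h

end Pool.Agent.MP_278fbd_co.HR
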