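import Pool.Agent.Lib.MP_278fbd_co.HR.Stm

/-!
# MP_278fbd_co, project HR, piece de: the theorem for dense digraphs from the fractional form
-/

set_option autoImplicit false

namespace Pool.Agent.MP_278fbd_co.HR

open Finset

private lemma de_num {c ε α e δ r n : ℝ} (hc : 0 < c) (hε : 0 < ε) (hn : 0 ≤ n)
    (hr : α * n ≤ r) (_hδ1 : δ ≤ 1) (hδ0 : 0 ≤ δ) (hδ : δ * (2 * (c + 1)) ≤ ε) (he0 : 0 ≤ e)
    (he : e * (8 * (c + 1)) ≤ ε * α) (hr0 : 0 ≤ r) :
    (c - ε) * r ≤ (1 - δ) * (c * (r - 2 * e * n)) - ε * α / 4 * n := by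
  have h1 : δ * c ≤ ε / 2 := by nlinarith
  have h2 : 2 * e * c * n ≤ ε / 4 * r := by
    have h3 : 2 * e * c ≤ ε * α / 4 := by nlinarith
    calc 2 * e * c * n ≤ ε * α / 4 * n := mul_le_mul_of_nonneg_right h3 hn
      _ = ε / 4 * (α * n) := by ring
      _ ≤ ε / 4 * r := mul_le_mul_of_nonneg_left hr (by positivity)
  have h4 : ε * α / 4 * n ≤ ε / 4 * r := by
    calc ε * α / 4 * n = ε / 4 * (α * n) := by ring
      _ ≤ ε / 4 * r := mul_le_mul_of_nonneg_left hr (by positivity)
  have h5 : δ * c * r ≤ ε / 2 * r := mul_le_mul_of_nonneg_right h1 hr0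
  have h6 : 0 ≤ δ * (2 * e * c * n) := by positivity
  nlinarith

theorem p_de (h_nb : S_nb) (h_gd : S_gd) (h_yf : S_yf) (h_ld : S_ld) : S_de := by
  classical
  intro c hF α hα ε hε
  rcases le_or_gt c 0 with hc | hc
  · refine ⟨0, 0, fun V _ G _ _ r _ _ => ⟨∅, 0, fun i => i.elim0, by simp, ?_, fun l => l.elim0,
      fun l => l.elim0⟩⟩
    have h1 : (c - ε) * (r : ℝ) ≤ 0 :=
      mul_nonpos_of_nonpos_of_nonneg (by linarith) (Nat.cast_nonneg r)
    simpa using h1
  obtain ⟨e, he0, he1, he2, he3⟩ : ∃ e : ℝ, 0 < e ∧ e ≤ α / 4 ∧ e < 1 ∧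
      e * (8 * (c + 1)) ≤ ε * α := by
    refine ⟨min (min (α / 4) (1 / 2)) (ε * α / (8 * (c + 1))), ?_, ?_, ?_, ?_⟩
    · exact lt_min (lt_min (by positivity) (by norm_num)) (by positivity)
    · exact (min_le_left _ _).trans (min_le_left _ _)
    · exact lt_of_le_of_lt ((min_le_left _ _).trans (min_le_right _ _)) (by norm_num)
    · have h1 : min (min (α / 4) (1 / 2)) (ε * α / (8 * (c + 1))) ≤ ε * α / (8 * (c + 1)) :=
        min_le_right _ _
      calc _ ≤ ε * α / (8 * (c + 1)) * (8 * (c + 1)) :=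
            mul_le_mul_of_nonneg_right h1 (by positivity)
        _ = ε * α := by field_simp
  obtain ⟨δ, hδ0, hδ1, hδ2⟩ : ∃ δ : ℝ, 0 < δ ∧ δ ≤ 1 ∧ δ * (2 * (c + 1)) ≤ ε := by
    refine ⟨min 1 (ε / (2 * (c + 1))), lt_min one_pos (by positivity), min_le_left _ _, ?_⟩
    calc _ ≤ ε / (2 * (c + 1)) * (2 * (c + 1)) :=
          mul_le_mul_of_nonneg_right (min_le_right _ _) (by positivity)
      _ = ε := by field_simp
  obtain ⟨q, hq1, hq2, hq3⟩ : ∃ q : ℕ, 0 < q ∧ 2 ≤ e * q ∧ 4 / (e ^ 3 * q) ≤ δ / 2 := by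
    obtain ⟨q, hq⟩ := exists_nat_ge (2 / e + 8 / (e ^ 3 * δ))
    have hp1 : 0 < 2 / e := by positivity
    have hp2 : 0 < 8 / (e ^ 3 * δ) := by positivity
    have hqp : (0 : ℝ) < q := by linarith
    refine ⟨q, by exact_mod_cast hqp, ?_, ?_⟩
    · have h1 : 2 / e ≤ q := by linarith
      rw [div_le_iff₀ he0] at h1
      linarith
    · have h1 : 8 / (e ^ 3 * δ) ≤ q := by linarith
      rw [div_le_iff₀ (by positivity)] at h1
      rw [div_le_div_iff₀ (by positivity) (by norm_num)]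
      nlinarith
  obtain ⟨K', n₀', hgd⟩ := h_gd q e δ he0 hδ0 hq2 hq3
  obtain ⟨ε', hε', hnb⟩ := h_nb q (ε * α / 4) (by positivity)
  obtain ⟨n₁, hn₁⟩ := exists_nat_ge (1 / ε' + q / ε')
  refine ⟨max K' q, max n₀' (max 1 n₁), ?_⟩
  intro V _ G hG hn r hr hdeg
  have hn1 : n₀' ≤ Fintype.card V := (le_max_left _ _).trans hn
  have hn2 : 1 ≤ Fintype.card V := (le_max_left _ _).trans ((le_max_right _ _).trans hn)
  have hn3 : n₁ ≤ Fintype.card V := (le_max_right _ _).trans ((le_max_right _ _).trans hn)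
  have hne : Nonempty V := Fintype.card_pos_iff.1 hn2
  obtain ⟨X, hXc, hX⟩ := hgd V G hn1 hG r hdeg
  have hqR : (0 : ℝ) < (q : ℝ) := by exact_mod_cast hq1
  have hnR : (0 : ℝ) < (Fintype.card V : ℝ) := by exact_mod_cast hn2
  have hnε : 1 / ε' + q / ε' ≤ (Fintype.card V : ℝ) := hn₁.trans (by exact_mod_cast hn3)
  have hqε : (0 : ℝ) < q / ε' := by positivity
  have h1ε : (0 : ℝ) < 1 / ε' := by positivity
  set n : ℝ := (Fintype.card V : ℝ) with hnd
  set β : ℝ := r / n - e with hβ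
  have hβe : 0 ≤ β - e := by
    have h1 : α ≤ r / n := by
      rw [le_div_iff₀ hnR]; exact hr
    rw [hβ]; linarith
  have hex : ∀ f : Fin q → V, ∃ y : Finset (Fin q) → Fin q → ℝ, (∀ C l, 0 ≤ y C l) ∧
      (∀ C l, y C l ≠ 0 → Good G X β e f ∧ l ∈ C ∧ 2 ≤ C.card ∧
        ∃ x ∈ X, IsCyc G (insert x ((C.erase l).image f))) ∧
      (∀ i, ∑ C : Finset (Fin q), ∑ l : Fin q, (if i ∈ C ∧ i ≠ l then y C l else 0) ≤ 1) ∧
      (Good G X β e f →
        c * ((β - e) * q) ≤ ∑ C : Finset (Fin q), ∑ l : Fin q, y C l) := by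
    intro f
    by_cases hf : Good G X β e f
    · obtain ⟨y, h1, h2, h3, h4⟩ := h_yf c hc.le hF q β e hq1 he2 V G X f hG hf
      exact ⟨y, h1, fun C l h => ⟨hf, h2 C l h⟩, h3, fun _ => h4⟩
    · refine ⟨fun _ _ => 0, fun _ _ => le_rfl, fun C l h => absurd rfl h, fun i => ?_,
        fun h => absurd h hf⟩
      simp
  choose y hy0 hy1 hy2 hy3 using hex
  set s : ℝ := n / (q * n ^ q) with hs
  have hs0 : 0 < s := by rw [hs]; positivity
  set B : (Fin q → V) × Finset (Fin q) × Fin q → Finset V :=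
    fun k => (k.2.1.erase k.2.2).image k.1 with hB
  set ω : (Fin q → V) × Finset (Fin q) × Fin q → ℝ :=
    fun k => y k.1 k.2.1 k.2.2 * s with hω
  have hω0 : ∀ k, ω k ≠ 0 → y k.1 k.2.1 k.2.2 ≠ 0 := by
    intro k hk h0
    apply hk
    rw [hω]
    simp only
    rw [h0, zero_mul]
  obtain ⟨hld1, hld2⟩ := h_ld V q y hq1 hy0 hy2
  obtain ⟨I, hI1, hI2, hI3⟩ := hnb V ((Fin q → V) × Finset (Fin q) × Fin q) B ω
    (fun k => mul_nonneg (hy0 _ _ _) hs0.le)
    (by
      intro k hk
      obtain ⟨hg, hl, h2, _⟩ := hy1 _ _ _ (hω0 k hk)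
      have hcard : (B k).card = k.2.1.card - 1 := by
        rw [hB]
        simp only
        rw [Finset.card_image_of_injective _ hg.inj, Finset.card_erase_of_mem hl]
      have hle : k.2.1.card ≤ q := by
        have := Finset.card_le_univ k.2.1
        rwa [Fintype.card_fin] at this
      rw [hcard]
      omega)
    (fun u => hld1 u)
    (fun u v huv => (hld2 u v huv).trans (by
      rw [div_le_iff₀ hnR, mul_comm, ← div_le_iff₀ hε']
      linarith))
    (by linarith)
  -- the total weight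
  have htot : (1 - δ) * (c * (r - 2 * e * n)) ≤ ∑ k, ω k := by
    have h1 : ∑ k, ω k = s * ∑ f : Fin q → V, ∑ C : Finset (Fin q), ∑ l : Fin q, y f C l := by
      rw [Fintype.sum_prod_type, Finset.mul_sum]
      refine Finset.sum_congr rfl fun f _ => ?_
      rw [Fintype.sum_prod_type, Finset.mul_sum]
      refine Finset.sum_congr rfl fun C _ => ?_
      rw [Finset.mul_sum]
      refine Finset.sum_congr rfl fun l _ => ?_
      rw [hω]
      exact mul_comm _ _
    set A : ℝ := c * ((β - e) * q) with hA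
    have hA0 : 0 ≤ A := by rw [hA]; positivity
    set Gd : Finset (Fin q → V) := univ.filter fun f => Good G X β e f with hGd
    have h2 : (Gd.card : ℝ) * A ≤
        ∑ f : Fin q → V, ∑ C : Finset (Fin q), ∑ l : Fin q, y f C l := by
      calc (Gd.card : ℝ) * A = ∑ _f ∈ Gd, A := by rw [Finset.sum_const, nsmul_eq_mul]
        _ ≤ ∑ f ∈ Gd, ∑ C : Finset (Fin q), ∑ l : Fin q, y f C l :=
          Finset.sum_le_sum fun f hf => hy3 f (Finset.mem_filter.1 hf).2
        _ ≤ _ := by
          refine Finset.sum_le_sum_of_subset_of_nonneg (Finset.subset_univ _) fun f _ _ => ?_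
          exact Finset.sum_nonneg fun C _ => Finset.sum_nonneg fun l _ => hy0 f C l
    have h3 : (1 - δ) * n ^ q ≤ (Gd.card : ℝ) := by
      have h4 : (univ.filter fun f : Fin q → V => ¬ Good G X β e f).card + Gd.card =
          (univ : Finset (Fin q → V)).card := by
        rw [add_comm]
        exact Finset.card_filter_add_card_filter_not _
      have h5 : ((univ : Finset (Fin q → V)).card : ℝ) = n ^ q := by
        rw [Finset.card_univ, Fintype.card_pi]
        simp [hnd]
      have h6 : ({f : Fin q → V | ¬ Good G X (r / n - e) e f}.ncard : ℝ) =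
          ((univ.filter fun f : Fin q → V => ¬ Good G X β e f).card : ℝ) := by
        rw [← Set.ncard_coe_finset]
        congr 2
        ext f
        simp [hβ]
      have h7 := hX
      rw [h6] at h7
      have h8 : (((univ.filter fun f : Fin q → V => ¬ Good G X β e f).card : ℕ) : ℝ) +
          (Gd.card : ℝ) = n ^ q := by
        rw [← h5]
        exact_mod_cast h4
      linarith
    have hsn : s * (n ^ q * q) = n := by
      rw [hs]; field_simp
    calc (1 - δ) * (c * (r - 2 * e * n)) = s * ((1 - δ) * n ^ q * A) := by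
          have h9 : n * (β - e) = r - 2 * e * n := by
            rw [hβ]; field_simp; ring
          calc (1 - δ) * (c * (r - 2 * e * n)) = (1 - δ) * c * (n * (β - e)) := by
                rw [h9]; ring
            _ = (1 - δ) * c * ((s * (n ^ q * q)) * (β - e)) := by rw [hsn]
            _ = _ := by rw [hA]; ring
      _ ≤ s * (Gd.card * A) := by gcongr
      _ ≤ s * ∑ f : Fin q → V, ∑ C : Finset (Fin q), ∑ l : Fin q, y f C l := by gcongr
      _ = _ := h1.symm
  have hIc : (c - ε) * r ≤ (I.card : ℝ) := by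
    have h1 := de_num (c := c) (ε := ε) (α := α) (e := e) (δ := δ) (r := r) (n := n) hc hε
      hnR.le hr hδ1 hδ0.le hδ2 he0.le he3 (Nat.cast_nonneg r)
    linarith
  -- the cycles
  have hcyc : ∀ i : I, ∃ x ∈ X, IsCyc G (insert x (B i.1)) := by
    intro i
    obtain ⟨_, _, _, x, hx, hx2⟩ := hy1 _ _ _ (hω0 i.1 (hI1 i.1 i.2))
    exact ⟨x, hx, hx2⟩
  choose x hx hxc using hcyc
  have hav : ∀ i : I, ∀ v ∈ B i.1, v ∉ X := by
    intro i v hv
    obtain ⟨hg, _⟩ := hy1 _ _ _ (hω0 i.1 (hI1 i.1 i.2))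
    rw [hB] at hv
    simp only [Finset.mem_image] at hv
    obtain ⟨j, _, rfl⟩ := hv
    exact hg.avoid j
  refine ⟨X, I.card, fun l => insert (x (I.equivFin.symm l)) (B (I.equivFin.symm l).1),
    hXc.trans (le_max_left _ _), hIc, fun l => ⟨hxc _, ?_, ?_⟩, ?_⟩
  · refine (Finset.card_insert_le _ _).trans ((?_ : _ ≤ q).trans (le_max_right _ _))
    set i := I.equivFin.symm l
    obtain ⟨hg, hl, h2, _⟩ := hy1 _ _ _ (hω0 i.1 (hI1 i.1 i.2))
    have hcard : (B i.1).card = i.1.2.1.card - 1 := by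
      rw [hB]
      simp only
      rw [Finset.card_image_of_injective _ hg.inj, Finset.card_erase_of_mem hl]
    have hle : i.1.2.1.card ≤ q := by
      have := Finset.card_le_univ i.1.2.1
      rwa [Fintype.card_fin] at this
    rw [hcard]
    omega
  · refine ⟨x (I.equivFin.symm l), ⟨Finset.mem_insert_self _ _, hx _⟩, ?_⟩
    rintro v ⟨hv1, hv2⟩
    rcases Finset.mem_insert.1 hv1 with h | h
    · exact h
    · exact absurd hv2 (hav _ v h)
  · intro l m hlm v hv1 hv2
    rcases Finset.mem_insert.1 hv1 with h | h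
    · rw [h]; exact hx _
    · rcases Finset.mem_insert.1 hv2 with h' | h'
      · rw [h']; exact hx _
      · exfalso
        have hne2 : (I.equivFin.symm l).1 ≠ (I.equivFin.symm m).1 := by
          intro h0
          exact hlm (I.equivFin.symm.injective (Subtype.ext h0))
        exact (Finset.disjoint_left.1 (hI2 _ (I.equivFin.symm l).2 _ (I.equivFin.symm m).2 hne2))
          h h'

end Pool.Agent.MP_278fbd_co.HR
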