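import Pool.Agent.Lib.MP_278fbd_co.HR.Stm

set_option autoImplicit false

namespace Pool.Agent.MP_278fbd_co.HR

open Finset

private theorem du_sum {α : Type} [Fintype α] (P : α → Prop) [DecidablePred P]
    (f : {a // P a} → ℝ) : ∑ a, (if h : P a then f ⟨a, h⟩ else 0) = ∑ j, f j := by
  classical
  have h1 : ∑ a ∈ univ.filter P, (if h : P a then f ⟨a, h⟩ else 0) =
      ∑ j : {a // P a}, (if h : P j.1 then f ⟨j.1, h⟩ else 0) :=
    Finset.sum_subtype (univ.filter P) (by simp) _
  have h2 : ∑ a ∈ univ.filter P, (if h : P a then f ⟨a, h⟩ else 0) =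
      ∑ a, (if h : P a then f ⟨a, h⟩ else 0) := by
    apply Finset.sum_subset (Finset.subset_univ _)
    intro a _ ha
    rw [dif_neg]
    intro h
    exact ha (Finset.mem_filter.2 ⟨Finset.mem_univ _, h⟩)
  rw [← h2, h1]
  refine Finset.sum_congr rfl fun j _ => ?_
  rw [dif_pos j.2]

theorem p_du (h_ci : S_ci) (h_lp : S_lp) : S_du := by
  classical
  intro c hD V _ _ _ G hG r hr
  obtain ⟨y', hy0, hy1, hy2⟩ := h_lp V {j : Finset V × V // IsCyc G j.1 ∧ j.2 ∈ j.1}
    (fun j => j.1.1.erase j.1.2) (c * r) (by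
      intro z hz hB
      refine hD V G hG r hr z hz fun x l hl => ?_
      have hx : x ∉ l := (List.nodup_cons.1 hl.2.1).1
      have h1 := hB ⟨(insert x l.toFinset, x), h_ci V G x l hl, Finset.mem_insert_self _ _⟩
      have h2 : (insert x l.toFinset).erase x = l.toFinset :=
        Finset.erase_insert (fun h => hx (List.mem_toFinset.1 h))
      change 1 ≤ ∑ v ∈ (insert x l.toFinset).erase x, z v at h1
      rw [h2, List.sum_toFinset z (List.nodup_cons.1 hl.2.1).2] at h1
      exact h1)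
  refine ⟨fun C x => if h : IsCyc G C ∧ x ∈ C then y' ⟨(C, x), h⟩ else 0, ?_, ?_, ?_, ?_⟩
  · intro C x
    dsimp only
    split_ifs with h
    · exact hy0 _
    · exact le_rfl
  · intro C x h
    by_contra h1
    exact h (dif_neg h1)
  · intro v
    have e : ∑ C : Finset V, ∑ x : V, (if v ∈ C ∧ v ≠ x then
        (if h : IsCyc G C ∧ x ∈ C then y' ⟨(C, x), h⟩ else 0) else 0) =
        ∑ j : {j : Finset V × V // IsCyc G j.1 ∧ j.2 ∈ j.1},
          (if v ∈ j.1.1.erase j.1.2 then y' j else 0) := by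
      rw [← du_sum (fun j : Finset V × V => IsCyc G j.1 ∧ j.2 ∈ j.1)
        (fun j => if v ∈ j.1.1.erase j.1.2 then y' j else 0), Fintype.sum_prod_type]
      refine Finset.sum_congr rfl fun C _ => Finset.sum_congr rfl fun x _ => ?_
      have h3 : v ∈ C.erase x ↔ v ∈ C ∧ v ≠ x := by
        rw [Finset.mem_erase]
        exact and_comm
      by_cases h1 : IsCyc G C ∧ x ∈ C
      · simp only [dif_pos h1, h3]
      · simp only [dif_neg h1]
        split_ifs <;> rfl
    exact e.trans_le (hy1 v)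
  · have e : ∑ C : Finset V, ∑ x : V,
        (if h : IsCyc G C ∧ x ∈ C then y' ⟨(C, x), h⟩ else 0) = ∑ j, y' j := by
      rw [← du_sum (fun j : Finset V × V => IsCyc G j.1 ∧ j.2 ∈ j.1) y',
        Fintype.sum_prod_type]
    exact hy2.trans_eq e.symm

end Pool.Agent.MP_278fbd_co.HR
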