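import Pool.Agent.Lib.MP_278fbd_co.HR.Stm

/-!
# MP_278fbd_co, project HR, piece [gd]: almost all samples are good
-/

set_option autoImplicit false

namespace Pool.Agent.MP_278fbd_co.HR

open Finset

private theorem gd_nc {T : Type} [Fintype T] (A : Set T) (ψ : T → ℝ) (h0 : ∀ f, 0 ≤ ψ f)
    (h1 : ∀ f ∈ A, 1 ≤ ψ f) : (A.ncard : ℝ) ≤ ∑ f, ψ f := by
  classical
  rw [Set.ncard_eq_toFinset_card' A]
  calc ((A.toFinset.card : ℕ) : ℝ) = ∑ _f ∈ A.toFinset, (1 : ℝ) := by simp
    _ ≤ ∑ f ∈ A.toFinset, ψ f := Finset.sum_le_sum fun f hf => h1 f (Set.mem_toFinset.1 hf)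
    _ ≤ ∑ f, ψ f := Finset.sum_le_sum_of_subset_of_nonneg (Finset.subset_univ _)
        fun f _ _ => h0 f

private theorem gd_pair (h_cnt : S_cnt) (V : Type) [Fintype V] [Nonempty V] [DecidableEq V] (q : ℕ)
    (i j : Fin q) (hij : i ≠ j) :
    (∑ f : Fin q → V, (if f i = f j then (1 : ℝ) else 0)) * (Fintype.card V : ℝ) =
      (Fintype.card V : ℝ) ^ q := by
  have hinj : Function.Injective (![i, j] : Fin 2 → Fin q) := by
    intro a b hab
    fin_cases a <;> fin_cases b
    · rfl
    · exact absurd hab hij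
    · exact absurd hab.symm hij
    · rfl
  have h := h_cnt V q 2 ![i, j] hinj (fun g => if g 0 = g 1 then (1 : ℝ) else 0)
  have h2 : (∑ g : Fin 2 → V, (if g 0 = g 1 then (1 : ℝ) else 0)) = (Fintype.card V : ℝ) := by
    rw [Fintype.sum_equiv (finTwoArrowEquiv V) (fun g : Fin 2 → V => if g 0 = g 1 then (1 : ℝ) else 0)
      (fun p : V × V => if p.1 = p.2 then (1 : ℝ) else 0) (fun g => rfl), Fintype.sum_prod_type]
    simp
  rw [h2] at h
  have hn : (0 : ℝ) < (Fintype.card V : ℝ) := by exact_mod_cast Fintype.card_pos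
  have h3 : (∑ f : Fin q → V, (if f i = f j then (1 : ℝ) else 0)) * (Fintype.card V : ℝ) ^ 2 =
      (Fintype.card V : ℝ) * (Fintype.card V : ℝ) ^ q := h
  apply mul_left_cancel₀ hn.ne'
  rw [← h3]
  ring

private theorem gd_one (h_cnt : S_cnt) (V : Type) [Fintype V] [DecidableEq V] (q : ℕ)
    (i : Fin q) (X : Finset V) :
    (∑ f : Fin q → V, (if f i ∈ X then (1 : ℝ) else 0)) * (Fintype.card V : ℝ) =
      (X.card : ℝ) * (Fintype.card V : ℝ) ^ q := by
  have hinj : Function.Injective (fun _ : Fin 1 => i) := fun a b _ => Subsingleton.elim a b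
  have h := h_cnt V q 1 (fun _ => i) hinj (fun g => if g 0 ∈ X then (1 : ℝ) else 0)
  have h2 : (∑ g : Fin 1 → V, (if g 0 ∈ X then (1 : ℝ) else 0)) = (X.card : ℝ) := by
    rw [Fintype.sum_equiv (Equiv.funUnique (Fin 1) V)
      (fun g : Fin 1 → V => if g 0 ∈ X then (1 : ℝ) else 0)
      (fun v : V => if v ∈ X then (1 : ℝ) else 0) (fun g => rfl)]
    simp
  rw [h2, pow_one] at h
  exact h

theorem p_gd (h_cnt : S_cnt) (h_rt : S_rt) (h_ch : S_ch) : S_gd := by
  classical
  intro q e δ he hδ hq hqδ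
  obtain ⟨K, hK⟩ := h_rt q (δ / 4) (by positivity)
  refine ⟨K, ⌈8 * ((q : ℝ) ^ 2 + q * K) / δ⌉₊ + 1, ?_⟩
  intro V _ G hV hG r hr
  have hn1 : 1 ≤ Fintype.card V := by omega
  have : Nonempty V := Fintype.card_pos_iff.1 (by omega)
  set n : ℝ := (Fintype.card V : ℝ) with hn
  have hn0 : 0 < n := by
    rw [hn]
    exact_mod_cast hn1
  have hnb : (q : ℝ) ^ 2 + q * K ≤ δ / 8 * n := by
    have h1 : 8 * ((q : ℝ) ^ 2 + q * K) / δ ≤ n := by
      calc 8 * ((q : ℝ) ^ 2 + q * K) / δ ≤ (⌈8 * ((q : ℝ) ^ 2 + q * K) / δ⌉₊ : ℝ) := Nat.le_ceil _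
        _ ≤ n := by
          rw [hn]
          exact_mod_cast (by omega : ⌈8 * ((q : ℝ) ^ 2 + q * K) / δ⌉₊ ≤ Fintype.card V)
    rw [div_le_iff₀ hδ] at h1
    nlinarith
  obtain ⟨X, hXK, hX⟩ := hK V G hG
  refine ⟨X, hXK, ?_⟩
  have hC := h_ch q e he hq V G r hG hr
  set A1 : Set (Fin q → V) := {f | ∃ i j, i ≠ j ∧ f i = f j} with hA1
  set A2 : Set (Fin q → V) := {f | ∃ i, f i ∈ X} with hA2
  set A3 : Set (Fin q → V) := {f : Fin q → V | e * q < ({i : Fin q |
    (({j : Fin q | G.Adj (f i) (f j)}.ncard : ℕ) : ℝ) <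
    (r / Fintype.card V - e) * q}.ncard : ℝ)} with hA3
  set A4 : Set (Fin q → V) := {f : Fin q → V | ∃ i j l, G.Adj (f l) (f i) ∧ G.Adj (f j) (f l) ∧
      ∀ x ∈ X, ¬ (G.Adj x (f i) ∧ G.Adj (f j) x)} with hA4
  have hsub : {f : Fin q → V | ¬ Good G X (r / Fintype.card V - e) e f} ⊆
      A1 ∪ (A2 ∪ (A3 ∪ A4)) := by
    intro f hf
    by_contra hno
    simp only [Set.mem_union, not_or] at hno
    obtain ⟨h1, h2, h3, h4⟩ := hno
    apply hf
    refine ⟨?_, ?_, ?_, ?_⟩
    · intro i j hij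
      by_contra hne
      exact h1 ⟨i, j, hne, hij⟩
    · intro i hi
      exact h2 ⟨i, hi⟩
    · exact not_lt.1 h3
    · intro i j l hl1 hl2
      by_contra hne
      apply h4
      refine ⟨i, j, l, hl1, hl2, ?_⟩
      intro x hx hx2
      exact hne ⟨x, hx, hx2⟩
  have hcard : ({f : Fin q → V | ¬ Good G X (r / Fintype.card V - e) e f}.ncard : ℝ) ≤
      A1.ncard + (A2.ncard + (A3.ncard + A4.ncard)) := by
    have h1 : {f : Fin q → V | ¬ Good G X (r / Fintype.card V - e) e f}.ncard ≤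
        A1.ncard + (A2.ncard + (A3.ncard + A4.ncard)) := by
      refine (Set.ncard_le_ncard hsub (Set.toFinite _)).trans ?_
      refine (Set.ncard_union_le _ _).trans ?_
      apply Nat.add_le_add_left
      refine (Set.ncard_union_le _ _).trans ?_
      apply Nat.add_le_add_left
      exact Set.ncard_union_le _ _
    exact_mod_cast h1
  have hb1 : (A1.ncard : ℝ) * n ≤ (q : ℝ) ^ 2 * n ^ q := by
    have h1 : (A1.ncard : ℝ) ≤ ∑ f : Fin q → V, ∑ i : Fin q, ∑ j : Fin q,
        (if i ≠ j then (if f i = f j then (1 : ℝ) else 0) else 0) := by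
      apply gd_nc
      · intro f
        apply Finset.sum_nonneg
        intro i _
        apply Finset.sum_nonneg
        intro j _
        split_ifs <;> norm_num
      · rintro f ⟨i, j, hij, hf⟩
        have h2 : (1 : ℝ) ≤ ∑ j : Fin q, (if i ≠ j then (if f i = f j then (1 : ℝ) else 0) else 0) := by
          have h3 := Finset.single_le_sum (f := fun j : Fin q =>
            (if i ≠ j then (if f i = f j then (1 : ℝ) else 0) else 0)) (s := Finset.univ)
            (fun j _ => by split_ifs <;> norm_num) (Finset.mem_univ j)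
          simp only [if_pos hij, if_pos hf] at h3
          exact h3
        refine h2.trans ?_
        exact Finset.single_le_sum (f := fun i : Fin q => ∑ j : Fin q,
          (if i ≠ j then (if f i = f j then (1 : ℝ) else 0) else 0)) (s := Finset.univ)
          (fun i _ => Finset.sum_nonneg fun j _ => by split_ifs <;> norm_num) (Finset.mem_univ i)
    have h2 : (∑ f : Fin q → V, ∑ i : Fin q, ∑ j : Fin q,
        (if i ≠ j then (if f i = f j then (1 : ℝ) else 0) else 0)) =
        ∑ i : Fin q, ∑ j : Fin q, ∑ f : Fin q → V,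
        (if i ≠ j then (if f i = f j then (1 : ℝ) else 0) else 0) := by
      rw [Finset.sum_comm]
      apply Finset.sum_congr rfl
      intro i _
      rw [Finset.sum_comm]
    have h3 : ∀ i j : Fin q, (∑ f : Fin q → V,
        (if i ≠ j then (if f i = f j then (1 : ℝ) else 0) else 0)) * n ≤ n ^ q := by
      intro i j
      by_cases hij : i ≠ j
      · simp only [if_pos hij]
        rw [hn, gd_pair h_cnt V q i j hij]
      · simp only [if_neg hij]
        rw [Finset.sum_const_zero, zero_mul]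
        positivity
    calc (A1.ncard : ℝ) * n ≤ (∑ i : Fin q, ∑ j : Fin q, ∑ f : Fin q → V,
          (if i ≠ j then (if f i = f j then (1 : ℝ) else 0) else 0)) * n := by
          rw [← h2]
          exact mul_le_mul_of_nonneg_right h1 hn0.le
      _ = ∑ i : Fin q, ∑ j : Fin q, (∑ f : Fin q → V,
          (if i ≠ j then (if f i = f j then (1 : ℝ) else 0) else 0)) * n := by
          rw [Finset.sum_mul]
          apply Finset.sum_congr rfl
          intro i _
          rw [Finset.sum_mul]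
      _ ≤ ∑ i : Fin q, ∑ j : Fin q, n ^ q :=
          Finset.sum_le_sum fun i _ => Finset.sum_le_sum fun j _ => h3 i j
      _ = (q : ℝ) ^ 2 * n ^ q := by
          simp only [Finset.sum_const, Finset.card_univ, Fintype.card_fin, nsmul_eq_mul]
          ring
  have hb2 : (A2.ncard : ℝ) * n ≤ (q : ℝ) * K * n ^ q := by
    have h1 : (A2.ncard : ℝ) ≤ ∑ f : Fin q → V, ∑ i : Fin q, (if f i ∈ X then (1 : ℝ) else 0) := by
      apply gd_nc
      · intro f
        apply Finset.sum_nonneg
        intro i _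
        split_ifs <;> norm_num
      · rintro f ⟨i, hi⟩
        have h3 := Finset.single_le_sum (f := fun i : Fin q => (if f i ∈ X then (1 : ℝ) else 0))
            (s := Finset.univ) (fun j _ => by split_ifs <;> norm_num)
            (Finset.mem_univ i)
        simp only [if_pos hi] at h3
        exact h3
    rw [Finset.sum_comm] at h1
    calc (A2.ncard : ℝ) * n ≤ (∑ i : Fin q, ∑ f : Fin q → V,
          (if f i ∈ X then (1 : ℝ) else 0)) * n := mul_le_mul_of_nonneg_right h1 hn0.le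
      _ = ∑ i : Fin q, (∑ f : Fin q → V, (if f i ∈ X then (1 : ℝ) else 0)) * n := by
          rw [Finset.sum_mul]
      _ = ∑ i : Fin q, (X.card : ℝ) * n ^ q := by
          apply Finset.sum_congr rfl
          intro i _
          rw [hn, gd_one h_cnt V q i X]
      _ = (q : ℝ) * X.card * n ^ q := by
          simp only [Finset.sum_const, Finset.card_univ, Fintype.card_fin, nsmul_eq_mul]
          ring
      _ ≤ (q : ℝ) * K * n ^ q := by
          have h5 : (X.card : ℝ) ≤ K := by exact_mod_cast hXK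
          have h6 : (0 : ℝ) ≤ n ^ q := by positivity
          have h7 : (0 : ℝ) ≤ (q : ℝ) := by positivity
          exact mul_le_mul_of_nonneg_right (mul_le_mul_of_nonneg_left h5 h7) h6
  have hpow : 0 ≤ n ^ q := by positivity
  have hb12 : (A1.ncard : ℝ) + A2.ncard ≤ δ / 8 * n ^ q := by
    have h1 : ((A1.ncard : ℝ) + A2.ncard) * n ≤ (δ / 8 * n ^ q) * n := by
      calc ((A1.ncard : ℝ) + A2.ncard) * n = (A1.ncard : ℝ) * n + (A2.ncard : ℝ) * n := by ring
        _ ≤ (q : ℝ) ^ 2 * n ^ q + (q : ℝ) * K * n ^ q := add_le_add hb1 hb2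
        _ = ((q : ℝ) ^ 2 + q * K) * n ^ q := by ring
        _ ≤ (δ / 8 * n) * n ^ q := mul_le_mul_of_nonneg_right hnb hpow
        _ = (δ / 8 * n ^ q) * n := by ring
    exact le_of_mul_le_mul_right h1 hn0
  have hb3 : (A3.ncard : ℝ) ≤ δ / 2 * n ^ q :=
    hC.trans (mul_le_mul_of_nonneg_right hqδ hpow)
  have hb4 : (A4.ncard : ℝ) ≤ δ / 4 * n ^ q := hX
  calc ({f : Fin q → V | ¬ Good G X (r / Fintype.card V - e) e f}.ncard : ℝ) ≤
      A1.ncard + (A2.ncard + (A3.ncard + A4.ncard)) := hcard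
    _ ≤ δ / 8 * n ^ q + (δ / 2 * n ^ q + δ / 4 * n ^ q) := by linarith
    _ ≤ δ * n ^ q := by nlinarith

end Pool.Agent.MP_278fbd_co.HR
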