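import Pool.Agent.Lib.MP_278fbd_co.HR.Stm

/-!
# MP_278fbd_co, project HR, piece gr: the growth lemma
-/

set_option autoImplicit false

namespace Pool.Agent.MP_278fbd_co.HR

open Finset

/-- right derivative of one summand -/
theorem gr_deriv1 (z b t : ℝ) (hz : 0 ≤ z) :
    HasDerivWithinAt (fun s => min z (max 0 (s - b)))
      (if b ≤ t ∧ t < b + z then 1 else 0) (Set.Ici t) t := by
  rcases lt_or_ge t b with h1 | h1
  · rw [if_neg (by intro h; linarith [h.1])]
    refine HasDerivWithinAt.congr_of_eventuallyEq (f := fun _ => (0 : ℝ))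
      (hasDerivWithinAt_const _ _ _) ?_ ?_
    · have : ∀ᶠ s in nhdsWithin t (Set.Ici t), s < b :=
        nhdsWithin_le_nhds (Iio_mem_nhds h1)
      filter_upwards [this] with s hs
      rw [max_eq_left (by linarith), min_eq_right hz]
    · rw [max_eq_left (by linarith), min_eq_right hz]
  · rcases lt_or_ge t (b + z) with h2 | h2
    · rw [if_pos ⟨h1, h2⟩]
      refine HasDerivWithinAt.congr_of_eventuallyEq (f := fun s => s - b)
        ((hasDerivWithinAt_id t _).sub_const b) ?_ ?_
      · have h3 : ∀ᶠ s in nhdsWithin t (Set.Ici t), s < b + z :=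
          nhdsWithin_le_nhds (Iio_mem_nhds h2)
        have h4 : ∀ᶠ s in nhdsWithin t (Set.Ici t), t ≤ s := self_mem_nhdsWithin
        filter_upwards [h3, h4] with s hs hs'
        rw [max_eq_right (by linarith), min_eq_right (by linarith)]
      · rw [max_eq_right (by linarith), min_eq_right (by linarith)]
    · rw [if_neg (by intro h; linarith [h.2])]
      refine HasDerivWithinAt.congr_of_eventuallyEq (f := fun _ => z)
        (hasDerivWithinAt_const _ _ _) ?_ ?_
      · have h4 : ∀ᶠ s in nhdsWithin t (Set.Ici t), t ≤ s := self_mem_nhdsWithin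
        filter_upwards [h4] with s hs'
        rw [max_eq_right (by linarith), min_eq_left (by linarith)]
      · rw [max_eq_right (by linarith), min_eq_left (by linarith)]

theorem gr_deriv {V : Type} [Fintype V] (z b : V → ℝ) (hz : ∀ v, 0 ≤ z v) (t : ℝ) :
    HasDerivWithinAt (FF z b) ((SS z b t).ncard : ℝ) (Set.Ici t) t := by
  classical
  have h1 : HasDerivWithinAt (fun s => ∑ u, min (z u) (max 0 (s - b u)))
      (∑ u, (if b u ≤ t ∧ t < b u + z u then (1 : ℝ) else 0)) (Set.Ici t) t :=
    HasDerivWithinAt.fun_sum fun u _ => gr_deriv1 (z u) (b u) t (hz u)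
  have h2 : ((SS z b t).ncard : ℝ) = ∑ u, (if b u ≤ t ∧ t < b u + z u then (1 : ℝ) else 0) := by
    rw [← Finset.sum_filter, Finset.sum_const, nsmul_eq_mul, mul_one]
    congr 1
    rw [← Set.ncard_coe_finset]
    congr 1
    ext u
    simp [SS]
  rw [h2]
  exact h1

theorem gr_cont {V : Type} [Fintype V] (z b : V → ℝ) : Continuous (FF z b) := by
  unfold FF
  fun_prop

theorem p_gr : S_gr := by
  intro V _ z b hz hb hM
  set M := ∑ u, z u with hMdef
  by_cases hM0 : M = 0
  · refine ⟨0, le_rfl, by norm_num, ?_⟩
    have hz0 : ∀ u, z u = 0 := fun u =>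
      (Finset.sum_eq_zero_iff_of_nonneg fun u _ => hz u).1 hM0 u (mem_univ u)
    have h1 : SS z b 0 = ∅ := by
      ext u
      simp only [SS, Set.mem_ofPred_eq, Set.mem_empty_iff_false, iff_false, not_and, not_lt, hz0 u]
      intro h
      linarith
    have h2 : FF z b 0 = 0 := by
      unfold FF
      refine Finset.sum_eq_zero fun u _ => ?_
      rw [hz0 u, min_eq_left (le_max_left _ _)]
    rw [h1, h2, hM0]
    simp
  · have hlt : FF z b (1 / 2) < M / 2 := by
      rcases hM with h | h
      · exact absurd h hM0
      · exact h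
    by_contra hcon
    push Not at hcon
    set κ : ℝ := 2 * Real.log 2 with hκ
    let h : ℝ → ℝ := fun t => Real.exp (κ * t) * (M - FF z b t)
    let h' : ℝ → ℝ := fun t => Real.exp (κ * t) * κ * (M - FF z b t) +
      Real.exp (κ * t) * (0 - ((SS z b t).ncard : ℝ))
    have hder : ∀ x ∈ Set.Ico (0 : ℝ) (1 / 2), HasDerivWithinAt h (h' x) (Set.Ici x) x := by
      intro x _
      have e1 : HasDerivWithinAt (fun t => Real.exp (κ * t)) (Real.exp (κ * x) * κ)
          (Set.Ici x) x := by
        have e0 : HasDerivAt (fun t : ℝ => κ * t) κ x := by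
          simpa using (hasDerivAt_id x).const_mul κ
        exact (e0.exp).hasDerivWithinAt
      have e2 : HasDerivWithinAt (fun t => M - FF z b t) (0 - ((SS z b x).ncard : ℝ))
          (Set.Ici x) x :=
        (hasDerivWithinAt_const x _ M).sub (gr_deriv z b hz x)
      exact e1.mul e2
    have hcont : ContinuousOn h (Set.Icc 0 (1 / 2)) := by
      have := gr_cont z b
      apply Continuous.continuousOn
      show Continuous fun t => Real.exp (κ * t) * (M - FF z b t)
      fun_prop
    have key := image_le_of_deriv_right_le_deriv_boundary (f := h) (f' := h') (a := 0)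
      (b := 1 / 2) hcont hder (B := fun _ => h 0) (B' := fun _ => 0) le_rfl
      continuousOn_const (fun x _ => hasDerivWithinAt_const x _ _) (by
        intro x hx
        have h3 := hcon x hx.1 hx.2
        have h4 : h' x = Real.exp (κ * x) * (κ * (M - FF z b x) - ((SS z b x).ncard : ℝ)) := by
          simp only [h']
          ring
        show h' x ≤ 0
        rw [h4]
        exact mul_nonpos_of_nonneg_of_nonpos (Real.exp_pos _).le (by linarith))
      (x := 1 / 2) ⟨by norm_num, le_rfl⟩
    have h5 : FF z b 0 = 0 := by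
      unfold FF
      refine Finset.sum_eq_zero fun u _ => ?_
      rw [max_eq_left (by linarith [hb u]), min_eq_right (hz u)]
    have h6 : Real.exp (κ * (1 / 2)) = 2 := by
      rw [hκ, show 2 * Real.log 2 * (1 / 2) = Real.log 2 by ring, Real.exp_log (by norm_num)]
    simp only [h] at key
    rw [h6, h5] at key
    simp at key
    linarith

end Pool.Agent.MP_278fbd_co.HR
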