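import Pool.Agent.Lib.MP_278fbd_co.HR.Stm

set_option autoImplicit false

namespace Pool.Agent.MP_278fbd_co.HR

open Finset

theorem p_hit : S_hit := by
  classical
  intro ρ τ hρ hτ
  obtain ⟨ρ', hρ'⟩ : ∃ ρ', ρ' = min ρ 1 := ⟨_, rfl⟩
  have h0 : 0 < ρ' := by
    rw [hρ']
    exact lt_min hρ one_pos
  have h1 : ρ' ≤ 1 := by
    rw [hρ']
    exact min_le_right _ _
  have h2 : ρ' ≤ ρ := by
    rw [hρ']
    exact min_le_left _ _
  obtain ⟨K, hK⟩ := exists_pow_lt_of_lt_one hτ (show 1 - ρ' < 1 by linarith)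
  refine ⟨K, ?_⟩
  intro V T _ _ _ w R hw hR
  have hmain : ∑ g : Fin K → V, ∑ t, (if ∃ x ∈ univ.image g, x ∈ R t then 0 else w t) ≤
      ∑ _g : Fin K → V, τ * ∑ t, w t := by
    rw [Finset.sum_comm, Finset.sum_const, Finset.card_univ, Fintype.card_fun, Fintype.card_fin,
      nsmul_eq_mul, Finset.mul_sum, Finset.mul_sum]
    refine Finset.sum_le_sum fun t _ => ?_
    have e1 : ∑ g : Fin K → V, (if ∃ x ∈ univ.image g, x ∈ R t then 0 else w t) =
        (((R t)ᶜ.card : ℕ) : ℝ) ^ K * w t := by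
      have e2 : ∀ g : Fin K → V, (if ∃ x ∈ univ.image g, x ∈ R t then (0 : ℝ) else w t) =
          if g ∈ Fintype.piFinset (fun _ : Fin K => (R t)ᶜ) then w t else 0 := by
        intro g
        by_cases h : ∃ x ∈ univ.image g, x ∈ R t
        · rw [if_pos h, if_neg]
          intro h3
          obtain ⟨x, hx, hx'⟩ := h
          obtain ⟨i, -, rfl⟩ := Finset.mem_image.1 hx
          exact Finset.mem_compl.1 (Fintype.mem_piFinset.1 h3 i) hx'
        · rw [if_neg h, if_pos]
          rw [Fintype.mem_piFinset]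
          intro i
          rw [Finset.mem_compl]
          intro h3
          exact h ⟨g i, Finset.mem_image_of_mem _ (Finset.mem_univ _), h3⟩
      rw [Finset.sum_congr rfl fun g _ => e2 g, Finset.sum_ite_mem, Finset.univ_inter,
        Finset.sum_const, Fintype.card_piFinset, Finset.prod_const, Finset.card_univ,
        Fintype.card_fin, nsmul_eq_mul, Nat.cast_pow]
    rw [e1]
    by_cases hw0 : w t = 0
    · rw [hw0]
      simp
    · have h3 := hR t hw0
      have h4 : (((R t)ᶜ.card : ℕ) : ℝ) ≤ (1 - ρ') * Fintype.card V := by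
        rw [Finset.card_compl, Nat.cast_sub (Finset.card_le_univ _)]
        have : ρ' * (Fintype.card V : ℝ) ≤ ρ * Fintype.card V :=
          mul_le_mul_of_nonneg_right h2 (Nat.cast_nonneg _)
        linarith
      have h5 : (((R t)ᶜ.card : ℕ) : ℝ) ^ K ≤ τ * (Fintype.card V : ℝ) ^ K := by
        refine (pow_le_pow_left₀ (Nat.cast_nonneg _) h4 K).trans ?_
        rw [mul_pow]
        exact mul_le_mul_of_nonneg_right hK.le (by positivity)
      have h6 := mul_le_mul_of_nonneg_right h5 (hw t)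
      calc (((R t)ᶜ.card : ℕ) : ℝ) ^ K * w t ≤ τ * (Fintype.card V : ℝ) ^ K * w t := h6
        _ = ((Fintype.card V ^ K : ℕ) : ℝ) * (τ * w t) := by
            rw [Nat.cast_pow]
            ring
  obtain ⟨g, -, hg⟩ := Finset.exists_le_of_sum_le Finset.univ_nonempty hmain
  refine ⟨univ.image g, ?_, ?_⟩
  · exact Finset.card_image_le.trans (by simp)
  · refine le_trans (le_of_eq ?_) hg
    refine Finset.sum_congr rfl fun t _ => ?_
    by_cases h : ∃ x ∈ univ.image g, x ∈ R t
    · rw [if_pos h, if_pos h]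
    · rw [if_neg h, if_neg h]

end Pool.Agent.MP_278fbd_co.HR
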