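import Pool.Agent.Lib.MP_278fbd_co.HR.Stm

set_option autoImplicit false

namespace Pool.Agent.MP_278fbd_co.HR

/-- The list `f i₀, f (i₀ + 1), ...` of the vertices of a directed cycle. -/
private theorem ic_aux {V : Type} [DecidableEq V] (G : Digraph V) (k : ℕ) (f : Fin (k + 2) → V)
    (hf : Function.Injective f) (ha : ∀ i : Fin (k + 2), G.Adj (f i) (f (finRotate (k + 2) i)))
    (i₀ : Fin (k + 2)) :
    ∃ l : List V, CycL G (f i₀) l ∧ (l.toFinset : Set V) = Set.range f \ {f i₀} := by
  classical
  set g : Fin (k + 2) → V := fun j => f (i₀ + j) with hg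
  have hginj : Function.Injective g := by
    intro a b h
    have := hf h
    exact add_left_cancel this
  have hg0 : g 0 = f i₀ := by simp [hg]
  have hadj : ∀ j : Fin (k + 2), G.Adj (g j) (g (j + 1)) := by
    intro j
    have := ha (i₀ + j)
    rw [finRotate_succ_apply] at this
    simpa [hg, add_assoc] using this
  -- the list
  refine ⟨List.ofFn (fun j : Fin (k + 1) => g j.succ), ⟨?_, ?_, ?_⟩, ?_⟩
  · intro h
    have := congrArg List.length h
    simp at this
  · have h1 : f i₀ :: List.ofFn (fun j : Fin (k + 1) => g j.succ) = List.ofFn g := by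
      rw [List.ofFn_succ (f := g), hg0]
    rw [h1]
    exact List.nodup_ofFn.2 hginj
  · have h1 : f i₀ :: (List.ofFn (fun j : Fin (k + 1) => g j.succ) ++ [f i₀])
        = List.ofFn g ++ [f i₀] := by
      rw [List.ofFn_succ (f := g), hg0]
      rfl
    rw [h1]
    rw [List.isChain_iff_getElem]
    intro i hi
    have hlen : (List.ofFn g ++ [f i₀]).length = k + 3 := by simp
    rw [hlen] at hi
    by_cases h : i + 1 < k + 2
    · rw [List.getElem_append_left (by simp; omega), List.getElem_append_left (by simp; omega)]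
      rw [List.getElem_ofFn, List.getElem_ofFn]
      have := hadj ⟨i, by omega⟩
      have h2 : (⟨i, by omega⟩ : Fin (k + 2)) + 1 = ⟨i + 1, h⟩ := by
        apply Fin.ext
        rw [Fin.val_add]
        simp only [Fin.val_one]
        exact Nat.mod_eq_of_lt h
      rw [h2] at this
      exact this
    · have hi2 : i = k + 1 := by omega
      subst hi2
      rw [List.getElem_append_left (by simp), List.getElem_append_right (by simp)]
      rw [List.getElem_ofFn]
      have := hadj ⟨k + 1, by omega⟩
      have h2 : (⟨k + 1, by omega⟩ : Fin (k + 2)) + 1 = 0 := by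
        apply Fin.ext
        rw [Fin.val_add]
        simp
      rw [h2, hg0] at this
      simpa using this
  · ext v
    simp only [List.coe_toFinset, List.mem_ofFn, Set.mem_setOf_eq, Set.mem_diff, Set.mem_range,
      Set.mem_singleton_iff]
    constructor
    · rintro ⟨j, rfl⟩
      refine ⟨⟨i₀ + j.succ, rfl⟩, ?_⟩
      rw [← hg0]
      intro h
      exact Fin.succ_ne_zero j (hginj h)
    · rintro ⟨⟨m, rfl⟩, hne⟩
      have h3 : m - i₀ ≠ 0 := by
        intro h
        apply hne
        rw [sub_eq_zero] at h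
        rw [h]
      obtain ⟨j, hj⟩ := Fin.exists_succ_eq_of_ne_zero h3
      refine ⟨j, ?_⟩
      simp only [hg]
      rw [hj]
      congr 1
      abel

theorem p_ic : S_ic := by
  intro V _ G C x ⟨k, f, hk, hf, hr, ha⟩ hx
  obtain ⟨k, rfl⟩ : ∃ m, k = m + 2 := ⟨k - 2, by omega⟩
  have hx' : x ∈ Set.range f := by
    rw [hr]
    exact_mod_cast hx
  obtain ⟨i₀, rfl⟩ := hx'
  obtain ⟨l, hl, hl2⟩ := ic_aux G k f hf ha i₀
  refine ⟨l, hl, ?_⟩
  apply Finset.coe_injective
  rw [hl2, hr]
  simp

end Pool.Agent.MP_278fbd_co.HR
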