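import Pool.Agent.Lib.MP_278fbd_co.HR.Stm

/-!
# MP_278fbd_co, project HR: piece ld

Loads and codegrees of the averaged weights.
-/

set_option autoImplicit false

namespace Pool.Agent.MP_278fbd_co.HR

open Finset

private theorem ld_aux {q : ℕ} (y : Finset (Fin q) → Fin q → ℝ) (s : ℝ) (hs : 0 ≤ s)
    (hy : ∀ C l, 0 ≤ y C l)
    (hl : ∀ i, ∑ C : Finset (Fin q), ∑ l : Fin q, (if i ∈ C ∧ i ≠ l then y C l else 0) ≤ 1)
    {J : Type} [Fintype J] (P : J → Prop) [DecidablePred P] (π : J → Fin q)
    (cond : Finset (Fin q) → Fin q → Prop) [∀ C l, Decidable (cond C l)]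
    (h : ∀ C l, cond C l → ∃ j, P j ∧ π j ∈ C ∧ π j ≠ l) :
    ∑ C : Finset (Fin q), ∑ l : Fin q, (if cond C l then y C l * s else 0) ≤
      ∑ j, (if P j then s else 0) := by
  have h0 : ∀ C l, ∀ j, 0 ≤ (if P j then (if π j ∈ C ∧ π j ≠ l then y C l else 0) * s else 0) := by
    intro C l j
    split_ifs
    · exact mul_nonneg (hy C l) hs
    · rw [zero_mul]
    · exact le_refl _
  have h1 : ∑ C : Finset (Fin q), ∑ l : Fin q, (if cond C l then y C l * s else 0) ≤
      ∑ C : Finset (Fin q), ∑ l : Fin q, ∑ j,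
        (if P j then (if π j ∈ C ∧ π j ≠ l then y C l else 0) * s else 0) := by
    refine Finset.sum_le_sum fun C _ => Finset.sum_le_sum fun l _ => ?_
    by_cases hc : cond C l
    · obtain ⟨j, hP, hj1, hj2⟩ := h C l hc
      refine le_trans ?_ (Finset.single_le_sum (fun j _ => h0 C l j) (mem_univ j))
      rw [if_pos hc, if_pos hP, if_pos ⟨hj1, hj2⟩]
    · rw [if_neg hc]
      exact Finset.sum_nonneg fun j _ => h0 C l j
  have h2 : ∑ C : Finset (Fin q), ∑ l : Fin q, ∑ j,
        (if P j then (if π j ∈ C ∧ π j ≠ l then y C l else 0) * s else 0) =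
      ∑ j, ∑ C : Finset (Fin q), ∑ l : Fin q,
        (if P j then (if π j ∈ C ∧ π j ≠ l then y C l else 0) * s else 0) := by
    rw [Finset.sum_comm]
    rw [Finset.sum_congr rfl (fun l _ => Finset.sum_comm)]
    rw [Finset.sum_comm]
    exact Finset.sum_congr rfl fun j _ => Finset.sum_comm
  rw [h2] at h1
  refine h1.trans (Finset.sum_le_sum fun j _ => ?_)
  by_cases hP : P j
  · simp only [if_pos hP]
    have h3 : ∑ C : Finset (Fin q), ∑ l : Fin q,
        (if π j ∈ C ∧ π j ≠ l then y C l else 0) * s =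
        (∑ C : Finset (Fin q), ∑ l : Fin q, (if π j ∈ C ∧ π j ≠ l then y C l else 0)) * s := by
      rw [Finset.sum_mul]
      exact Finset.sum_congr rfl fun C _ => (Finset.sum_mul _ _ _).symm
    rw [h3]
    have := mul_le_mul_of_nonneg_right (hl (π j)) hs
    linarith
  · simp only [if_neg hP, Finset.sum_const_zero]
    exact le_refl _

private theorem ld_c1 (h_cnt : S_cnt) {V : Type} [Fintype V] [DecidableEq V] {q : ℕ}
    (i : Fin q) (u : V) (s : ℝ) :
    (∑ f : Fin q → V, (if f i = u then s else 0)) * (Fintype.card V : ℝ) =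
      s * (Fintype.card V : ℝ) ^ q := by
  have h := h_cnt V q 1 (fun _ => i) (fun a b _ => Subsingleton.elim a b)
    (fun g => if g 0 = u then s else 0)
  have h1 : ∑ g : Fin 1 → V, (if g 0 = u then s else 0) = s := by
    rw [Finset.sum_eq_single (fun _ => u)]
    · simp
    · intro g _ hg
      rw [if_neg]
      intro h0
      exact hg (funext fun a => by rw [Subsingleton.elim a 0, h0])
    · intro h0
      exact absurd (mem_univ _) h0
  rw [h1, pow_one] at h
  exact h

private theorem ld_c2 (h_cnt : S_cnt) {V : Type} [Fintype V] [DecidableEq V] {q : ℕ}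
    (i j : Fin q) (hij : i ≠ j) (u v : V) (s : ℝ) :
    (∑ f : Fin q → V, (if f i = u ∧ f j = v then s else 0)) * (Fintype.card V : ℝ) ^ 2 =
      s * (Fintype.card V : ℝ) ^ q := by
  have hinj : Function.Injective (![i, j] : Fin 2 → Fin q) := by
    intro a b hab
    fin_cases a <;> fin_cases b
    · rfl
    · exact absurd hab hij
    · exact absurd hab hij.symm
    · rfl
  have h := h_cnt V q 2 ![i, j] hinj (fun g => if g 0 = u ∧ g 1 = v then s else 0)
  have h1 : ∑ g : Fin 2 → V, (if g 0 = u ∧ g 1 = v then s else 0) = s := by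
    rw [Finset.sum_eq_single (![u, v] : Fin 2 → V)]
    · simp
    · intro g _ hg
      rw [if_neg]
      rintro ⟨h0, h0'⟩
      refine hg (funext fun a => ?_)
      fin_cases a
      · exact h0
      · exact h0'
    · intro h0
      exact absurd (mem_univ _) h0
  rw [h1] at h
  exact h

theorem p_ld (h_cnt : S_cnt) : S_ld := by
  intro V _ _ _ q y hq hy hl
  have hn : (0 : ℝ) < Fintype.card V := by exact_mod_cast Fintype.card_pos
  have hq' : (0 : ℝ) < q := by exact_mod_cast hq
  set n : ℝ := (Fintype.card V : ℝ) with hnd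
  have hs : 0 ≤ n / (q * n ^ q) := by positivity
  refine ⟨fun u => ?_, fun u v huv => ?_⟩
  · rw [Fintype.sum_prod_type]
    simp only [Fintype.sum_prod_type]
    have h1 : ∀ f : Fin q → V, ∑ C : Finset (Fin q), ∑ l : Fin q,
        (if u ∈ (C.erase l).image f then y f C l * (n / (q * n ^ q)) else 0) ≤
        ∑ i : Fin q, (if f i = u then n / (q * n ^ q) else 0) := by
      intro f
      refine ld_aux (y f) _ hs (hy f) (hl f) (fun i => f i = u) id
        (fun C l => u ∈ (C.erase l).image f) ?_
      intro C l h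
      obtain ⟨i, hi, hiu⟩ := mem_image.1 h
      exact ⟨i, hiu, (mem_erase.1 hi).2, (mem_erase.1 hi).1⟩
    refine (Finset.sum_le_sum fun f _ => h1 f).trans ?_
    rw [Finset.sum_comm]
    have h2 : ∀ i : Fin q, ∑ f : Fin q → V, (if f i = u then n / (q * n ^ q) else 0) =
        1 / q := by
      intro i
      have := ld_c1 h_cnt i u (n / (q * n ^ q))
      rw [← hnd] at this
      have h3 : n / (q * n ^ q) * n ^ q = n / q := by field_simp
      rw [h3] at this
      have h4 : (∑ f : Fin q → V, (if f i = u then n / (q * n ^ q) else 0)) * n =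
          (1 / q) * n := by
        rw [this]
        ring
      exact mul_right_cancel₀ hn.ne' h4
    rw [Finset.sum_congr rfl (fun i _ => h2 i), Finset.sum_const, card_univ, Fintype.card_fin,
      nsmul_eq_mul]
    exact le_of_eq (mul_one_div_cancel hq'.ne')
  · rw [Fintype.sum_prod_type]
    simp only [Fintype.sum_prod_type]
    have h1 : ∀ f : Fin q → V, ∑ C : Finset (Fin q), ∑ l : Fin q,
        (if u ∈ (C.erase l).image f ∧ v ∈ (C.erase l).image f then
          y f C l * (n / (q * n ^ q)) else 0) ≤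
        ∑ p : Fin q × Fin q, (if f p.1 = u ∧ f p.2 = v then n / (q * n ^ q) else 0) := by
      intro f
      refine ld_aux (y f) _ hs (hy f) (hl f) (fun p : Fin q × Fin q => f p.1 = u ∧ f p.2 = v)
        Prod.fst (fun C l => u ∈ (C.erase l).image f ∧ v ∈ (C.erase l).image f) ?_
      rintro C l ⟨h, h'⟩
      obtain ⟨i, hi, hiu⟩ := mem_image.1 h
      obtain ⟨j, hj, hjv⟩ := mem_image.1 h'
      exact ⟨(i, j), ⟨hiu, hjv⟩, (mem_erase.1 hi).2, (mem_erase.1 hi).1⟩
    refine (Finset.sum_le_sum fun f _ => h1 f).trans ?_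
    rw [Finset.sum_comm]
    have h2 : ∀ p : Fin q × Fin q, ∑ f : Fin q → V,
        (if f p.1 = u ∧ f p.2 = v then n / (q * n ^ q) else 0) ≤ 1 / (q * n) := by
      intro p
      by_cases hp : p.1 = p.2
      · rw [Finset.sum_eq_zero]
        · positivity
        · intro f _
          rw [if_neg]
          rintro ⟨k1, k2⟩
          rw [hp] at k1
          exact huv (k1.symm.trans k2)
      · have := ld_c2 h_cnt p.1 p.2 hp u v (n / (q * n ^ q))
        rw [← hnd] at this
        have h3 : n / (q * n ^ q) * n ^ q = n / q := by field_simp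
        rw [h3] at this
        have h4 : (∑ f : Fin q → V, (if f p.1 = u ∧ f p.2 = v then n / (q * n ^ q) else 0)) *
            n ^ 2 = (1 / (q * n)) * n ^ 2 := by
          rw [this]
          field_simp
        exact le_of_eq (mul_right_cancel₀ (pow_pos hn 2).ne' h4)
    refine (Finset.sum_le_sum fun p _ => h2 p).trans ?_
    rw [Finset.sum_const, card_univ, Fintype.card_prod, Fintype.card_fin, nsmul_eq_mul]
    push_cast
    refine le_of_eq ?_
    field_simp

end Pool.Agent.MP_278fbd_co.HR
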