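import Pool.Agent.Lib.MP_278fbd_co.HR.Stm

/-!
Piece [lp]: duality for fractional packings.
-/

set_option autoImplicit false

namespace Pool.Agent.MP_278fbd_co.HR

open Finset

theorem p_lp : S_lp := by
  classical
  intro U J _ _ _ B c h
  by_cases hc : c ≤ 0
  · exact ⟨fun _ => 0, fun _ => le_rfl, fun v => by simp, by simpa using hc⟩
  rw [not_le] at hc
  have hJ : Nonempty J := by
    by_contra hn
    rw [not_nonempty_iff] at hn
    have h1 := h 0 (fun _ => le_rfl) (fun j => hn.elim j)
    simp at h1
    linarith
  let L : (J → ℝ) →ₗ[ℝ] (U → ℝ) :=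
    Matrix.mulVecLin (Matrix.of fun (v : U) (j : J) => if v ∈ B j then (1 : ℝ) else 0)
  have hL : ∀ (y : J → ℝ) (v : U), L y v = ∑ j, (if v ∈ B j then y j else 0) := by
    intro y v
    simp only [L, Matrix.mulVecLin_apply, Matrix.mulVec, dotProduct, Matrix.of_apply, ite_mul,
      one_mul, zero_mul]
  let M : (J → ℝ) →ₗ[ℝ] (U → ℝ) := c • L
  have hMc : Continuous M := LinearMap.continuous_of_finiteDimensional M
  have hK1 : IsCompact (M '' stdSimplex ℝ J) := (isCompact_stdSimplex ℝ J).image hMc
  have hK2 : Convex ℝ (M '' stdSimplex ℝ J) := (convex_stdSimplex ℝ J).linear_image M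
  by_cases hd : Disjoint (Set.Iic (1 : U → ℝ)) (M '' stdSimplex ℝ J)
  swap
  · rw [Set.not_disjoint_iff] at hd
    obtain ⟨x, hx1, y, hy, rfl⟩ := hd
    refine ⟨c • y, fun j => mul_nonneg hc.le (hy.1 j), fun v => ?_, ?_⟩
    · have h1 : M y v ≤ 1 := hx1 v
      have h2 : M y v = ∑ j, (if v ∈ B j then (c • y) j else 0) := by
        rw [← hL (c • y) v, map_smul]
        rfl
      rw [← h2]
      exact h1
    · have h3 : ∑ j, (c • y) j = c := by
        simp only [Pi.smul_apply, smul_eq_mul]
        rw [← Finset.mul_sum, hy.2, mul_one]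
      rw [h3]
  · exfalso
    obtain ⟨f, u, v, hfu, huv, hfv⟩ := geometric_hahn_banach_closed_compact
      (convex_Iic (𝕜 := ℝ) (1 : U → ℝ)) isClosed_Iic hK2 hK1 hd
    set z : U → ℝ := fun i => f (Pi.single i 1) with hz
    have hf : ∀ x : U → ℝ, f x = ∑ i, z i * x i := by
      intro x
      have h1 := LinearMap.pi_apply_eq_sum_univ (f : (U → ℝ) →ₗ[ℝ] ℝ) x
      rw [ContinuousLinearMap.coe_coe] at h1
      rw [h1]
      refine Finset.sum_congr rfl fun i _ => ?_
      rw [smul_eq_mul, mul_comm]
      congr 1
      simp only [hz]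
      congr 1
      funext j
      simp [Pi.single_apply, eq_comm]
    have hz0 : ∀ i, 0 ≤ z i := by
      intro i
      by_contra hi
      rw [not_le] at hi
      -- choose s large with - s * z i ≥ u
      obtain ⟨s, hs0, hs⟩ : ∃ s : ℝ, 0 ≤ s ∧ u ≤ -s * z i := by
        refine ⟨|u| / (-z i), by have := neg_pos.mpr hi; positivity, ?_⟩
        have h1 : -(|u| / -z i) * z i = |u| := by
          have : z i ≠ 0 := hi.ne
          field_simp
        rw [h1]
        exact le_abs_self u
      have h2 : (Pi.single i (-s) : U → ℝ) ∈ Set.Iic (1 : U → ℝ) := by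
        intro j
        by_cases hj : j = i
        · subst hj
          simp only [Pi.single_eq_same, Pi.one_apply]
          linarith
        · rw [Pi.single_eq_of_ne hj]
          simp
      have h3 := hfu _ h2
      rw [hf] at h3
      rw [Finset.sum_eq_single i] at h3
      · rw [Pi.single_eq_same] at h3
        linarith
      · intro j _ hj
        rw [Pi.single_eq_of_ne hj, mul_zero]
      · intro hi'
        exact absurd (Finset.mem_univ i) hi'
    have hS : ∑ i, z i < u := by
      have h3 := hfu 1 (Set.mem_Iic.mpr le_rfl)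
      rw [hf] at h3
      simpa using h3
    have hj : ∀ j, u < c * ∑ i ∈ B j, z i := by
      intro j
      have h1 : (Pi.single j 1 : J → ℝ) ∈ stdSimplex ℝ J := single_mem_stdSimplex ℝ j
      have h2 := hfv _ ⟨_, h1, rfl⟩
      rw [hf] at h2
      have h3 : ∑ i, z i * M (Pi.single j 1) i = c * ∑ i ∈ B j, z i := by
        have h4 : ∀ i, M (Pi.single j 1) i = c * (if i ∈ B j then 1 else 0) := by
          intro i
          have h5 : M (Pi.single j 1) i = c * L (Pi.single j 1) i := rfl
          rw [h5, hL, Finset.sum_eq_single j]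
          · rw [Pi.single_eq_same]
          · intro k _ hk
            rw [Pi.single_eq_of_ne hk]
            simp
          · intro hj'
            exact absurd (Finset.mem_univ j) hj'
        simp only [h4]
        rw [← Finset.sum_filter_add_sum_filter_not Finset.univ (fun i => i ∈ B j)]
        rw [Finset.sum_congr (g := fun i => c * z i)
          (Finset.filter_univ_mem (B j)) (fun i hi => by simp [hi]; ring)]
        rw [Finset.sum_eq_zero (s := Finset.univ.filter fun i => ¬ i ∈ B j), add_zero,
          Finset.mul_sum]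
        intro i hi
        rw [Finset.mem_filter] at hi
        simp [hi.2]
      rw [h3] at h2
      linarith
    obtain ⟨j0, -, hj0⟩ := Finset.exists_min_image Finset.univ (fun j => ∑ i ∈ B j, z i)
      Finset.univ_nonempty
    set m := ∑ i ∈ B j0, z i with hm
    have hSz : 0 ≤ ∑ i, z i := Finset.sum_nonneg fun i _ => hz0 i
    have hm0 : 0 < m := by
      have := hj j0
      have h1 : 0 < c * m := by linarith
      exact (pos_iff_pos_of_mul_pos h1).mp hc
    have h5 := h (fun i => z i / m) (fun i => div_nonneg (hz0 i) hm0.le) (fun j => by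
      rw [← Finset.sum_div, le_div_iff₀ hm0, one_mul]
      exact hj0 j (Finset.mem_univ j))
    rw [← Finset.sum_div, le_div_iff₀ hm0] at h5
    have := hj j0
    linarith

end Pool.Agent.MP_278fbd_co.HR
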