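import Pool.Agent.Lib.MP_278fbd_co.HR.Stm
import Pool.Agent.Lib.MP_8b7544_co.Df.NW

/-!
# MP_278fbd_co, project HR: piece nb

The nibble with sums, from `NW_pad`.
-/

set_option autoImplicit false

namespace Pool.Agent.MP_278fbd_co.HR

open Finset

/-- the padded edges -/
private def nb_e {U κ : Type} {m : ℕ} (B : κ → Finset U) :
    (κ × Fin m) ⊕ U → Finset (U ⊕ Fin m)
  | Sum.inl p => (B p.1).disjSum {p.2}
  | Sum.inr u => ({u} : Finset U).disjSum ∅

/-- the weights of the padded edges -/
private noncomputable def nb_w {U κ : Type} [Fintype κ] [DecidableEq U] {m : ℕ}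
    (B : κ → Finset U) (ω : κ → ℝ) (Y : ℝ) : (κ × Fin m) ⊕ U → ℝ
  | Sum.inl p => ω p.1 / Y
  | Sum.inr u => 1 - (m / Y) * ∑ k, (if u ∈ B k then ω k else 0)

private theorem nb_sum {U κ : Type} [Fintype κ] [Fintype U] [DecidableEq U] {m : ℕ}
    (B : κ → Finset U) (ω : κ → ℝ) (Y : ℝ) (p : (κ × Fin m) ⊕ U → Prop) [DecidablePred p] :
    ∑ k, (if p k then nb_w B ω Y k else 0) =
      ∑ k, ∑ a : Fin m, (if p (Sum.inl (k, a)) then ω k / Y else 0) +
      ∑ u, (if p (Sum.inr u) then 1 - (m / Y) * ∑ k, (if u ∈ B k then ω k else 0) else 0) := by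
  rw [Fintype.sum_sum_type, Fintype.sum_prod_type]
  rfl

private theorem nb_le_card {U κ : Type} [Fintype κ] [Fintype U] [DecidableEq U]
    (B : κ → Finset U) (ω : κ → ℝ) (h0 : ∀ k, 0 ≤ ω k) (hB : ∀ k, 1 ≤ (B k).card)
    (hl : ∀ u, ∑ k, (if u ∈ B k then ω k else 0) ≤ 1) : ∑ k, ω k ≤ Fintype.card U := by
  have h1 : ∑ k, ω k ≤ ∑ k, ∑ u, (if u ∈ B k then ω k else 0) := by
    refine Finset.sum_le_sum fun k _ => ?_
    rw [← Finset.sum_filter, Finset.sum_const, nsmul_eq_mul]
    have h2 : univ.filter (fun u => u ∈ B k) = B k := by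
      ext u
      simp
    rw [h2]
    have h3 : (1 : ℝ) ≤ (B k).card := by exact_mod_cast hB k
    have := mul_le_mul_of_nonneg_right h3 (h0 k)
    linarith
  rw [Finset.sum_comm] at h1
  have h4 : ∑ u, ∑ k, (if u ∈ B k then ω k else 0) ≤ ∑ _u : U, (1 : ℝ) :=
    Finset.sum_le_sum fun u _ => hl u
  rw [Finset.sum_const, card_univ, nsmul_eq_mul, mul_one] at h4
  linarith

private theorem nb_core (R : ℕ) (η : ℝ) (hη : 0 < η) : ∃ ε > (0 : ℝ),
  ∀ (U κ : Type) [Fintype U] [DecidableEq U] [Fintype κ] (B : κ → Finset U) (ω : κ → ℝ),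
    (∀ k, 0 ≤ ω k) → (∀ k, 1 ≤ (B k).card ∧ (B k).card ≤ R) →
    (∀ u, ∑ k, (if u ∈ B k then ω k else 0) ≤ 1) →
    (∀ u v, u ≠ v → ∑ k, (if u ∈ B k ∧ v ∈ B k then ω k else 0) ≤ ε) →
    1 / ε ≤ (Fintype.card U : ℝ) →
    ∃ I : Finset κ, (∀ i ∈ I, ∀ j ∈ I, i ≠ j → Disjoint (B i) (B j)) ∧
      ∑ k, ω k - η * Fintype.card U ≤ I.card := by
  obtain ⟨e, he, H⟩ := Pool.Agent.Lib.MP_8b7544_co.Df.NW_pad (R + 2) (by omega) (η / 4)
    (by positivity)
  refine ⟨min e (min (η * e) (η / 2)), by positivity, ?_⟩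
  intro U κ _ _ _ B ω h0 hB hl hc hN
  classical
  set N : ℝ := (Fintype.card U : ℝ) with hNd
  set Y : ℝ := ∑ k, ω k with hYd
  have hY0 : 0 ≤ Y := Finset.sum_nonneg fun k _ => h0 k
  have hYN : Y ≤ N := nb_le_card B ω h0 (fun k => (hB k).1) hl
  by_cases hYs : Y ≤ η * N
  · refine ⟨∅, by simp, ?_⟩
    simp only [card_empty, Nat.cast_zero]
    linarith
  push Not at hYs
  have hN0 : 0 ≤ N := Nat.cast_nonneg _
  have hY : 0 < Y := lt_of_le_of_lt (by positivity) hYs
  have hεp : 0 < min e (min (η * e) (η / 2)) := by positivity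
  have hN1 : 1 ≤ N * min e (min (η * e) (η / 2)) := by
    rwa [div_le_iff₀ hεp] at hN
  have hNe : 1 ≤ N * e := hN1.trans (mul_le_mul_of_nonneg_left (min_le_left _ _) hN0)
  have hNe2 : 1 ≤ N * (η * e) :=
    hN1.trans (mul_le_mul_of_nonneg_left ((min_le_right _ _).trans (min_le_left _ _)) hN0)
  have hNe3 : 1 ≤ N * (η / 2) :=
    hN1.trans (mul_le_mul_of_nonneg_left ((min_le_right _ _).trans (min_le_right _ _)) hN0)
  have hYe : 1 / Y ≤ e := by
    rw [div_le_iff₀ hY]
    have := mul_le_mul_of_nonneg_left hYs.le he.le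
    nlinarith
  obtain ⟨m, hm1, hm2⟩ : ∃ m : ℕ, (m : ℝ) ≤ Y ∧ Y - 1 < m :=
    ⟨⌊Y⌋₊, Nat.floor_le hY0, Nat.sub_one_lt_floor Y⟩
  have hmY : (m : ℝ) / Y ≤ 1 := by
    rw [div_le_one hY]
    exact hm1
  have hmY0 : 0 ≤ (m : ℝ) / Y := by positivity
  have hL0 : ∀ u, 0 ≤ ∑ k, (if u ∈ B k then ω k else 0) := by
    intro u
    refine Finset.sum_nonneg fun k _ => ?_
    split_ifs
    · exact h0 k
    · exact le_refl _
  obtain ⟨I, C, hI, hC, hCc⟩ := H (U ⊕ Fin m) ((κ × Fin m) ⊕ U) (nb_e B) (nb_w B ω Y)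
    (by
      rintro (p | u)
      · exact div_nonneg (h0 _) hY0
      · show 0 ≤ 1 - ((m : ℝ) / Y) * ∑ k, (if u ∈ B k then ω k else 0)
        have h1 := mul_le_mul hmY (hl u) (hL0 u) zero_le_one
        linarith)
    (by
      rintro (p | u)
      · show 1 ≤ ((B p.1).disjSum {p.2}).card ∧ ((B p.1).disjSum {p.2}).card ≤ R + 2
        rw [card_disjSum, card_singleton]
        have := hB p.1
        omega
      · show 1 ≤ ((({u} : Finset U)).disjSum (∅ : Finset (Fin m))).card ∧
          ((({u} : Finset U)).disjSum (∅ : Finset (Fin m))).card ≤ R + 2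
        rw [card_disjSum, card_singleton, card_empty]
        omega)
    (by
      rintro (u | a)
      · rw [nb_sum]
        have h1 : ∀ k, ∀ a : Fin m, (Sum.inl u ∈ nb_e B (Sum.inl (k, a))) ↔ u ∈ B k :=
          fun k a => inl_mem_disjSum
        have h2 : ∀ v, (Sum.inl u ∈ nb_e (m := m) B (Sum.inr v)) ↔ u = v := fun v => by
          show Sum.inl u ∈ ({v} : Finset U).disjSum (∅ : Finset (Fin m)) ↔ _
          rw [inl_mem_disjSum, mem_singleton]
        simp only [h1, h2, sum_const, card_univ, Fintype.card_fin, nsmul_eq_mul,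
          sum_ite_eq, mem_univ, if_true]
        have h3 : ∀ k, (m : ℝ) * (if u ∈ B k then ω k / Y else 0) =
            (m / Y) * (if u ∈ B k then ω k else 0) := by
          intro k
          split_ifs
          · ring
          · ring
        rw [Finset.sum_congr rfl (fun k _ => h3 k), ← Finset.mul_sum]
        ring
      · rw [nb_sum]
        have h1 : ∀ k, ∀ b : Fin m, (Sum.inr a ∈ nb_e B (Sum.inl (k, b))) ↔ a = b :=
          fun k b => by
            show Sum.inr a ∈ (B k).disjSum {b} ↔ _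
            rw [inr_mem_disjSum, mem_singleton]
        have h2 : ∀ v, ¬ (Sum.inr a ∈ nb_e (m := m) B (Sum.inr v)) := fun v => by
          show ¬ (Sum.inr a ∈ ({v} : Finset U).disjSum (∅ : Finset (Fin m)))
          rw [inr_mem_disjSum]
          exact notMem_empty _
        simp only [h1, h2, sum_ite_eq, mem_univ, if_true, if_false, sum_const_zero, add_zero]
        rw [← Finset.sum_div]
        exact div_self hY.ne')
    (by
      rintro (u | a) (v | b) huv
      · rw [nb_sum]
        have h1 : ∀ k, ∀ a : Fin m, (Sum.inl u ∈ nb_e B (Sum.inl (k, a)) ∧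
            Sum.inl v ∈ nb_e B (Sum.inl (k, a))) ↔ (u ∈ B k ∧ v ∈ B k) :=
          fun k a => and_congr inl_mem_disjSum inl_mem_disjSum
        have h2 : ∀ w, ¬ (Sum.inl u ∈ nb_e (m := m) B (Sum.inr w) ∧
            Sum.inl v ∈ nb_e (m := m) B (Sum.inr w)) := fun w h => by
          have k1 : Sum.inl u ∈ ({w} : Finset U).disjSum (∅ : Finset (Fin m)) := h.1
          have k2 : Sum.inl v ∈ ({w} : Finset U).disjSum (∅ : Finset (Fin m)) := h.2
          rw [inl_mem_disjSum, mem_singleton] at k1 k2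
          exact huv (by rw [k1, k2])
        simp only [h1, h2, sum_const, card_univ, Fintype.card_fin, nsmul_eq_mul, if_false,
          mul_zero, add_zero]
        have h3 : ∀ k, (m : ℝ) * (if u ∈ B k ∧ v ∈ B k then ω k / Y else 0) =
            (m / Y) * (if u ∈ B k ∧ v ∈ B k then ω k else 0) := by
          intro k
          split_ifs
          · ring
          · ring
        rw [Finset.sum_congr rfl (fun k _ => h3 k), ← Finset.mul_sum]
        have h4 := hc u v (fun h => huv (by rw [h]))
        have h5 : 0 ≤ ∑ k, (if u ∈ B k ∧ v ∈ B k then ω k else 0) := by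
          refine Finset.sum_nonneg fun k _ => ?_
          split_ifs
          · exact h0 k
          · exact le_refl _
        have h6 := mul_le_mul_of_nonneg_right hmY h5
        have h7 := h4.trans (min_le_left _ _)
        linarith
      · rw [nb_sum]
        have h1 : ∀ k, ∀ a : Fin m, (Sum.inl u ∈ nb_e B (Sum.inl (k, a)) ∧
            Sum.inr b ∈ nb_e B (Sum.inl (k, a))) ↔ (u ∈ B k ∧ b = a) :=
          fun k a => by
            refine and_congr inl_mem_disjSum ?_
            show Sum.inr b ∈ (B k).disjSum {a} ↔ _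
            rw [inr_mem_disjSum, mem_singleton]
        have h2 : ∀ w, ¬ (Sum.inl u ∈ nb_e (m := m) B (Sum.inr w) ∧
            Sum.inr b ∈ nb_e (m := m) B (Sum.inr w)) := fun w h => by
          have k2 : Sum.inr b ∈ ({w} : Finset U).disjSum (∅ : Finset (Fin m)) := h.2
          rw [inr_mem_disjSum] at k2
          exact notMem_empty _ k2
        simp only [h1, h2, if_false, sum_const_zero, add_zero]
        have h3 : ∀ k, ∑ a : Fin m, (if u ∈ B k ∧ b = a then ω k / Y else 0) =
            (if u ∈ B k then ω k else 0) / Y := by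
          intro k
          by_cases hk : u ∈ B k
          · simp [hk]
          · simp [hk]
        rw [Finset.sum_congr rfl (fun k _ => h3 k), ← Finset.sum_div]
        have h4 := div_le_div_of_nonneg_right (hl u) hY0
        exact h4.trans hYe
      · rw [nb_sum]
        have h1 : ∀ k, ∀ c : Fin m, (Sum.inr a ∈ nb_e B (Sum.inl (k, c)) ∧
            Sum.inl v ∈ nb_e B (Sum.inl (k, c))) ↔ (v ∈ B k ∧ a = c) :=
          fun k c => by
            rw [and_comm]
            refine and_congr inl_mem_disjSum ?_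
            show Sum.inr a ∈ (B k).disjSum {c} ↔ _
            rw [inr_mem_disjSum, mem_singleton]
        have h2 : ∀ w, ¬ (Sum.inr a ∈ nb_e (m := m) B (Sum.inr w) ∧
            Sum.inl v ∈ nb_e (m := m) B (Sum.inr w)) := fun w h => by
          have k2 : Sum.inr a ∈ ({w} : Finset U).disjSum (∅ : Finset (Fin m)) := h.1
          rw [inr_mem_disjSum] at k2
          exact notMem_empty _ k2
        simp only [h1, h2, if_false, sum_const_zero, add_zero]
        have h3 : ∀ k, ∑ c : Fin m, (if v ∈ B k ∧ a = c then ω k / Y else 0) =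
            (if v ∈ B k then ω k else 0) / Y := by
          intro k
          by_cases hk : v ∈ B k
          · simp [hk]
          · simp [hk]
        rw [Finset.sum_congr rfl (fun k _ => h3 k), ← Finset.sum_div]
        have h4 := div_le_div_of_nonneg_right (hl v) hY0
        exact h4.trans hYe
      · rw [nb_sum]
        have h1 : ∀ k, ∀ c : Fin m, ¬ (Sum.inr a ∈ nb_e B (Sum.inl (k, c)) ∧
            Sum.inr b ∈ nb_e B (Sum.inl (k, c))) :=
          fun k c h => by
            have k1 : Sum.inr a ∈ (B k).disjSum {c} := h.1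
            have k2 : Sum.inr b ∈ (B k).disjSum {c} := h.2
            rw [inr_mem_disjSum, mem_singleton] at k1 k2
            exact huv (by rw [k1, k2])
        have h2 : ∀ w, ¬ (Sum.inr a ∈ nb_e (m := m) B (Sum.inr w) ∧
            Sum.inr b ∈ nb_e (m := m) B (Sum.inr w)) := fun w h => by
          have k2 : Sum.inr a ∈ ({w} : Finset U).disjSum (∅ : Finset (Fin m)) := h.1
          rw [inr_mem_disjSum] at k2
          exact notMem_empty _ k2
        simp only [h1, h2, if_false, sum_const_zero, add_zero]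
        exact he.le)
    (by
      rw [Fintype.card_sum, Fintype.card_fin]
      push_cast
      rw [div_le_iff₀ he]
      have h1 : 0 ≤ (m : ℝ) * e := by positivity
      nlinarith)
  refine ⟨univ.filter (fun k => ∃ a : Fin m, Sum.inl (k, a) ∈ I), ?_, ?_⟩
  · intro i hi j hj hij
    obtain ⟨a, ha⟩ := (mem_filter.1 hi).2
    obtain ⟨b, hb⟩ := (mem_filter.1 hj).2
    have h1 := hI _ ha _ hb (fun h => hij (congrArg Prod.fst (Sum.inl_injective h)))
    rw [Finset.disjoint_left] at h1 ⊢
    intro x hx hx'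
    exact h1 (a := Sum.inl x) (inl_mem_disjSum.2 hx) (inl_mem_disjSum.2 hx')
  · have h1 : ∀ a : Fin m, Sum.inr a ∉ C → ∃ k, Sum.inl (k, a) ∈ I := by
      intro a ha
      obtain ⟨e', he', hae⟩ := hC _ ha
      rcases e' with ⟨k, b⟩ | u
      · have k1 : Sum.inr a ∈ (B k).disjSum {b} := hae
        rw [inr_mem_disjSum, mem_singleton] at k1
        subst k1
        exact ⟨k, he'⟩
      · have k1 : Sum.inr a ∈ ({u} : Finset U).disjSum (∅ : Finset (Fin m)) := hae
        rw [inr_mem_disjSum] at k1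
        exact absurd k1 (notMem_empty _)
    have hκ : Nonempty κ := by
      by_contra h
      rw [not_nonempty_iff] at h
      have h0' : Y = 0 := by
        rw [hYd]
        exact Fintype.sum_empty _
      linarith
    choose! φ hφ using h1
    have h2 : (univ.filter (fun a : Fin m => Sum.inr a ∉ C)).card ≤
        (univ.filter (fun k => ∃ a : Fin m, Sum.inl (k, a) ∈ I)).card := by
      refine Finset.card_le_card_of_injOn φ ?_ ?_
      · intro a ha
        have ha' := (mem_filter.1 (mem_coe.1 ha)).2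
        exact mem_coe.2 (mem_filter.2 ⟨mem_univ _, a, hφ a ha'⟩)
      · intro a ha b hb hab
        have ha' := (mem_filter.1 (mem_coe.1 ha)).2
        have hb' := (mem_filter.1 (mem_coe.1 hb)).2
        by_contra hne
        have k1 := hφ a ha'
        have k2 := hφ b hb'
        rw [← hab] at k2
        have k3 := hI _ k1 _ k2 (fun h => hne (congrArg Prod.snd (Sum.inl_injective h)))
        obtain ⟨x, hx⟩ := Finset.card_pos.1 (hB (φ a)).1
        rw [Finset.disjoint_left] at k3
        exact k3 (a := Sum.inl x) (inl_mem_disjSum.2 hx) (inl_mem_disjSum.2 hx)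
    have h3 : (m : ℝ) ≤ (univ.filter (fun a : Fin m => Sum.inr a ∉ C)).card + C.card := by
      have k1 : (univ.filter (fun a : Fin m => Sum.inr a ∈ C)).card ≤ C.card := by
        refine Finset.card_le_card_of_injOn Sum.inr ?_ (Sum.inr_injective.injOn)
        intro a ha
        exact mem_coe.2 (mem_filter.1 (mem_coe.1 ha)).2
      have k2 := Finset.card_filter_add_card_filter_not (s := (univ : Finset (Fin m)))
        (fun a : Fin m => Sum.inr a ∈ C)
      rw [card_univ, Fintype.card_fin] at k2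
      have k3 : m ≤ (univ.filter (fun a : Fin m => Sum.inr a ∉ C)).card + C.card := by omega
      exact_mod_cast k3
    have h4 : (C.card : ℝ) ≤ η / 4 * (N + m) := by
      rw [Fintype.card_sum, Fintype.card_fin] at hCc
      push_cast at hCc
      exact hCc
    have h5 : ((univ.filter (fun a : Fin m => Sum.inr a ∉ C)).card : ℝ) ≤
        ((univ.filter (fun k => ∃ a : Fin m, Sum.inl (k, a) ∈ I)).card : ℝ) := by
      exact_mod_cast h2
    have h6 : (m : ℝ) ≤ N := hm1.trans hYN
    have h7 : η / 4 * (N + m) ≤ η / 4 * (N + N) :=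
      mul_le_mul_of_nonneg_left (by linarith) (by positivity)
    nlinarith

/-- the sum over the support -/
private theorem nb_sub {κ : Type} [Fintype κ] (ω : κ → ℝ) (f : κ → ℝ)
    [Fintype {k // ω k ≠ 0}] (hf : ∀ k, ω k = 0 → f k = 0) :
    ∑ k : {k // ω k ≠ 0}, f k = ∑ k, f k := by
  classical
  rw [← Finset.sum_subtype (univ.filter (fun k => ω k ≠ 0)) (by simp) f]
  refine Finset.sum_subset (Finset.subset_univ _) fun k _ hk => ?_
  refine hf k ?_
  by_contra h
  exact hk (by simp [h])

theorem p_nb : S_nb := by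
  intro R η hη
  obtain ⟨ε, hε, H⟩ := nb_core R η hη
  refine ⟨ε, hε, ?_⟩
  intro U κ _ _ _ B ω h0 hB hl hc hN
  classical
  obtain ⟨I, hI, hIc⟩ := H U {k // ω k ≠ 0} (fun k => B k.1) (fun k => ω k.1)
    (fun k => h0 k.1) (fun k => hB k.1 k.2)
    (by
      intro u
      rw [nb_sub ω (fun k => if u ∈ B k then ω k else 0) (fun k hk => by simp [hk])]
      exact hl u)
    (by
      intro u v huv
      rw [nb_sub ω (fun k => if u ∈ B k ∧ v ∈ B k then ω k else 0) (fun k hk => by simp [hk])]
      exact hc u v huv)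
    hN
  refine ⟨I.map (Function.Embedding.subtype _), ?_, ?_, ?_⟩
  · intro i hi
    obtain ⟨j, -, rfl⟩ := mem_map.1 hi
    exact j.2
  · intro i hi j hj hij
    obtain ⟨i', hi', rfl⟩ := mem_map.1 hi
    obtain ⟨j', hj', rfl⟩ := mem_map.1 hj
    exact hI i' hi' j' hj' (fun h => hij (by rw [h]))
  · rw [card_map]
    rw [nb_sub ω ω (fun k hk => hk)] at hIc
    exact hIc

end Pool.Agent.MP_278fbd_co.HR
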