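import Pool.Agent.Lib.MP_278fbd_co.HR.Stm

/-!
# MP_278fbd_co, project HR: piece [rt]
-/

set_option autoImplicit false

namespace Pool.Agent.MP_278fbd_co.HR

open Finset

open scoped Classical in
private theorem rt_ncard {A : Type} [Fintype A] (P : A → Prop) :
    (({f : A | P f}.ncard : ℕ) : ℝ) = ∑ f : A, (if P f then (1 : ℝ) else 0) := by
  rw [Set.ncard_eq_toFinset_card', Finset.sum_boole]
  congr 2
  ext f
  simp

private theorem rt_cons {V : Type} [Fintype V] (m : ℕ) (F : (Fin (m + 1) → V) → ℝ) :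
    ∑ g : Fin (m + 1) → V, F g = ∑ x : V, ∑ g : Fin m → V, F (Fin.cons x g) := by
  rw [← (Fin.consEquiv (fun _ => V)).sum_comp, Fintype.sum_prod_type]
  rfl

private theorem rt_one {V : Type} [Fintype V] (F : V → ℝ) :
    ∑ g : Fin 1 → V, F (g 0) = ∑ x : V, F x := by
  rw [rt_cons 0 (fun g => F (g 0))]
  simp

private theorem rt_two {V : Type} [Fintype V] (F : V → V → ℝ) :
    ∑ g : Fin 2 → V, F (g 0) (g 1) = ∑ x : V, ∑ y : V, F x y := by
  rw [rt_cons 1 (fun g => F (g 0) (g 1))]
  refine Finset.sum_congr rfl fun x _ => ?_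
  exact rt_one (fun y => F x y)

private theorem rt_three {V : Type} [Fintype V] (F : V → V → V → ℝ) :
    ∑ g : Fin 3 → V, F (g 0) (g 1) (g 2) = ∑ x : V, ∑ y : V, ∑ z : V, F x y z := by
  rw [rt_cons 2 (fun g => F (g 0) (g 1) (g 2))]
  refine Finset.sum_congr rfl fun x _ => ?_
  exact rt_two (fun y z => F x y z)

private theorem rt_avg (h_cnt : S_cnt) {V : Type} [Fintype V] [Nonempty V] (q m : ℕ)
    (e : Fin m → Fin q) (he : Function.Injective e) (φ : (Fin m → V) → ℝ) (c : ℝ)
    (h : ∑ g : Fin m → V, φ g ≤ c * (Fintype.card V : ℝ) ^ m) :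
    ∑ f : Fin q → V, φ (fun a => f (e a)) ≤ c * (Fintype.card V : ℝ) ^ q := by
  have hn : (0 : ℝ) < (Fintype.card V : ℝ) ^ m := by
    have : (0 : ℝ) < Fintype.card V := by exact_mod_cast Fintype.card_pos
    positivity
  have hq : (0 : ℝ) ≤ (Fintype.card V : ℝ) ^ q := by positivity
  have h1 := h_cnt V q m e he φ
  have h2 : (∑ f : Fin q → V, φ (fun a => f (e a))) * (Fintype.card V : ℝ) ^ m ≤
      (c * (Fintype.card V : ℝ) ^ q) * (Fintype.card V : ℝ) ^ m := by
    rw [h1]
    calc (∑ g : Fin m → V, φ g) * (Fintype.card V : ℝ) ^ q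
        ≤ (c * (Fintype.card V : ℝ) ^ m) * (Fintype.card V : ℝ) ^ q :=
          mul_le_mul_of_nonneg_right h hq
      _ = (c * (Fintype.card V : ℝ) ^ q) * (Fintype.card V : ℝ) ^ m := by ring
  exact le_of_mul_le_mul_right h2 hn

private theorem rt_inj2 {q : ℕ} {i j : Fin q} (h : i ≠ j) : Function.Injective ![i, j] := by
  intro a b hab
  have h' : j ≠ i := fun h1 => h h1.symm
  fin_cases a <;> fin_cases b <;> simp_all

private theorem rt_inj3 {q : ℕ} {i j l : Fin q} (h : i ≠ j) (h2 : i ≠ l) (h3 : j ≠ l) :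
    Function.Injective ![i, j, l] := by
  intro a b hab
  have h' : j ≠ i := fun h1 => h h1.symm
  have h2' : l ≠ i := fun h1 => h2 h1.symm
  have h3' : l ≠ j := fun h1 => h3 h1.symm
  fin_cases a <;> fin_cases b <;> simp_all

open scoped Classical in
/-- The union bound over pairs and triples of indices. -/
private theorem rt_union {F : Type} [Fintype F] (q : ℕ) (P : F → Prop) (A : Fin q → Fin q → F → Prop)
    (B : Fin q → Fin q → Fin q → F → Prop) (a b : ℝ)
    (hP : ∀ f, P f → (∃ i j, A i j f) ∨ ∃ i j l, B i j l f)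
    (hA : ∀ i j, ∑ f : F, (if A i j f then (1 : ℝ) else 0) ≤ a)
    (hB : ∀ i j l, ∑ f : F, (if B i j l f then (1 : ℝ) else 0) ≤ b) :
    (({f : F | P f}.ncard : ℕ) : ℝ) ≤ (q : ℝ) ^ 2 * a + (q : ℝ) ^ 3 * b := by
  have hA' : ∀ i j, (({f : F | A i j f}.ncard : ℕ) : ℝ) ≤ a := by
    intro i j
    rw [rt_ncard]
    exact hA i j
  have hB' : ∀ i j l, (({f : F | B i j l f}.ncard : ℕ) : ℝ) ≤ b := by
    intro i j l
    rw [rt_ncard]
    exact hB i j l
  have hsub : {f : F | P f} ⊆ (⋃ x : Fin q × Fin q, {f : F | A x.1 x.2 f}) ∪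
      ⋃ x : Fin q × Fin q × Fin q, {f : F | B x.1 x.2.1 x.2.2 f} := by
    intro f hf
    rcases hP f hf with ⟨i, j, h⟩ | ⟨i, j, l, h⟩
    · left
      exact Set.mem_iUnion.mpr ⟨(i, j), h⟩
    · right
      exact Set.mem_iUnion.mpr ⟨(i, j, l), h⟩
  have h1 : {f : F | P f}.ncard ≤ (⋃ x : Fin q × Fin q, {f : F | A x.1 x.2 f}).ncard +
      (⋃ x : Fin q × Fin q × Fin q, {f : F | B x.1 x.2.1 x.2.2 f}).ncard :=
    (Set.ncard_le_ncard hsub (Set.toFinite _)).trans (Set.ncard_union_le _ _)
  have hU : ∀ {J : Type} [Fintype J] (S : J → Set F) (c : ℝ), (∀ x, ((S x).ncard : ℝ) ≤ c) →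
      ((⋃ x, S x).ncard : ℝ) ≤ Fintype.card J * c := by
    intro J _ S c hS
    have h2 : (⋃ x, S x) = ((Finset.univ.biUnion fun x => (S x).toFinset : Finset F) : Set F) := by
      ext f
      simp
    have h3 : (⋃ x, S x).ncard ≤ ∑ x : J, (S x).ncard := by
      rw [h2, Set.ncard_coe_finset]
      refine Finset.card_biUnion_le.trans (Finset.sum_le_sum fun x _ => ?_)
      rw [Set.ncard_eq_toFinset_card']
    calc ((⋃ x, S x).ncard : ℝ) ≤ ((∑ x : J, (S x).ncard : ℕ) : ℝ) := by exact_mod_cast h3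
      _ = ∑ x : J, ((S x).ncard : ℝ) := by push_cast; rfl
      _ ≤ ∑ _x : J, c := Finset.sum_le_sum fun x _ => hS x
      _ = Fintype.card J * c := by rw [Finset.sum_const, Finset.card_univ, nsmul_eq_mul]
  have h4 := hU (fun x : Fin q × Fin q => {f : F | A x.1 x.2 f}) a (fun x => hA' x.1 x.2)
  have h5 := hU (fun x : Fin q × Fin q × Fin q => {f : F | B x.1 x.2.1 x.2.2 f}) b
    (fun x => hB' x.1 x.2.1 x.2.2)
  have c1 : (Fintype.card (Fin q × Fin q) : ℝ) = (q : ℝ) ^ 2 := by
    rw [Fintype.card_prod, Fintype.card_fin]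
    push_cast
    ring
  have c2 : (Fintype.card (Fin q × Fin q × Fin q) : ℝ) = (q : ℝ) ^ 3 := by
    rw [Fintype.card_prod, Fintype.card_prod, Fintype.card_fin]
    push_cast
    ring
  rw [c1] at h4
  rw [c2] at h5
  have h6 : (({f : F | P f}.ncard : ℕ) : ℝ) ≤
      ((⋃ x : Fin q × Fin q, {f : F | A x.1 x.2 f}).ncard : ℝ) +
      ((⋃ x : Fin q × Fin q × Fin q, {f : F | B x.1 x.2.1 x.2.2 f}).ncard : ℝ) := by
    exact_mod_cast h1
  linarith

open scoped Classical in
theorem p_rt (h_cnt : S_cnt) (h_hit : S_hit) : S_rt := by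
  intro q δ hδ
  rcases Nat.eq_zero_or_pos q with hq | hq
  · subst hq
    refine ⟨0, fun V _ _ G _ => ⟨∅, by simp, ?_⟩⟩
    have : {f : Fin 0 → V | ∃ i j l, G.Adj (f l) (f i) ∧ G.Adj (f j) (f l) ∧
        ∀ x ∈ (∅ : Finset V), ¬ (G.Adj x (f i) ∧ G.Adj (f j) x)} = ∅ := by
      ext f
      simp
    rw [this]
    simp only [Set.ncard_empty, Nat.cast_zero, pow_zero, mul_one]
    exact hδ.le
  · have hqr : (0 : ℝ) < q := by exact_mod_cast hq
    set ρ : ℝ := δ / (2 * q ^ 3) with hρ
    set τ : ℝ := δ / (4 * q ^ 2) with hτ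
    have hρ0 : 0 < ρ := by positivity
    have hτ0 : 0 < τ := by positivity
    obtain ⟨K, hK⟩ := h_hit ρ τ hρ0 hτ0
    refine ⟨K, ?_⟩
    intro V _ _ G hG
    set n : ℝ := (Fintype.card V : ℝ) with hn
    have hn0 : 0 < n := by
      rw [hn]
      exact_mod_cast Fintype.card_pos
    -- the sets
    set R : V → V → Finset V := fun p p' => univ.filter fun x => G.Adj x p ∧ G.Adj p' x with hR
    set w : (V × V) ⊕ V → ℝ := fun t => Sum.elim
      (fun a : V × V => if ρ * n ≤ ((R a.1 a.2).card : ℝ) then 1 / n ^ 2 else 0)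
      (fun p : V => if ρ * n ≤ ((R p p).card : ℝ) then 1 / n else 0) t with hw
    set RR : (V × V) ⊕ V → Finset V := fun t => Sum.elim
      (fun a : V × V => R a.1 a.2) (fun p : V => R p p) t with hRR
    have hw0 : ∀ t, 0 ≤ w t := by
      rintro (a | p)
      · simp only [hw, Sum.elim_inl]
        split_ifs <;> positivity
      · simp only [hw, Sum.elim_inr]
        split_ifs <;> positivity
    have hwR : ∀ t, w t ≠ 0 → ρ * (Fintype.card V : ℝ) ≤ ((RR t).card : ℝ) := by
      rintro (a | p) h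
      · simp only [hw, Sum.elim_inl] at h
        simp only [hRR, Sum.elim_inl]
        by_contra hc
        exact h (if_neg hc)
      · simp only [hw, Sum.elim_inr] at h
        simp only [hRR, Sum.elim_inr]
        by_contra hc
        exact h (if_neg hc)
    obtain ⟨X, hX1, hX2⟩ := hK V ((V × V) ⊕ V) w RR hw0 hwR
    refine ⟨X, hX1, ?_⟩
    have hwt : ∑ t, w t ≤ 2 := by
      rw [Fintype.sum_sum_type]
      have a1 : ∑ a : V × V, w (Sum.inl a) ≤ 1 := by
        calc ∑ a : V × V, w (Sum.inl a) ≤ ∑ _a : V × V, 1 / n ^ 2 := by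
              refine Finset.sum_le_sum fun a _ => ?_
              simp only [hw, Sum.elim_inl]
              split_ifs
              · exact le_rfl
              · positivity
          _ = 1 := by
              rw [Finset.sum_const, Finset.card_univ, Fintype.card_prod, nsmul_eq_mul]
              push_cast
              rw [← hn]
              field_simp
      have a2 : ∑ p : V, w (Sum.inr p) ≤ 1 := by
        calc ∑ p : V, w (Sum.inr p) ≤ ∑ _p : V, 1 / n := by
              refine Finset.sum_le_sum fun a _ => ?_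
              simp only [hw, Sum.elim_inr]
              split_ifs
              · exact le_rfl
              · positivity
          _ = 1 := by
              rw [Finset.sum_const, Finset.card_univ, nsmul_eq_mul, ← hn]
              field_simp
      linarith
    -- the missed ones
    set Miss : V → V → Prop := fun p p' => ∀ x ∈ X, ¬ (G.Adj x p ∧ G.Adj p' x) with hMiss
    have hmiss : ∀ p p', (¬ ∃ x ∈ X, x ∈ R p p') ↔ Miss p p' := by
      intro p p'
      simp only [hR, hMiss, mem_filter, mem_univ, true_and]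
      push Not
      rfl
    set rich : V → V → Prop := fun p p' => ρ * n ≤ ((R p p').card : ℝ) with hrich
    have htot : ∑ t, (if ∃ x ∈ X, x ∈ RR t then 0 else w t) ≤ 2 * τ := by
      calc ∑ t, (if ∃ x ∈ X, x ∈ RR t then 0 else w t) ≤ τ * ∑ t, w t := hX2
        _ ≤ τ * 2 := mul_le_mul_of_nonneg_left hwt hτ0.le
        _ = 2 * τ := by ring
    rw [Fintype.sum_sum_type] at htot
    have hg1 : 0 ≤ ∑ a : V × V, (if ∃ x ∈ X, x ∈ RR (Sum.inl a) then 0 else w (Sum.inl a)) :=
      Finset.sum_nonneg fun a _ => by split_ifs; exacts [le_rfl, hw0 _]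
    have hg2 : 0 ≤ ∑ p : V, (if ∃ x ∈ X, x ∈ RR (Sum.inr p) then 0 else w (Sum.inr p)) :=
      Finset.sum_nonneg fun a _ => by split_ifs; exacts [le_rfl, hw0 _]
    have hA2 : ∑ x : V, ∑ y : V, (if rich x y ∧ Miss x y then (1 : ℝ) else 0) ≤
        2 * τ * n ^ 2 := by
      have e1 : ∑ a : V × V, (if ∃ x ∈ X, x ∈ RR (Sum.inl a) then 0 else w (Sum.inl a)) =
          (∑ x : V, ∑ y : V, (if rich x y ∧ Miss x y then (1 : ℝ) else 0)) * (1 / n ^ 2) := by
        rw [Fintype.sum_prod_type, Finset.sum_mul]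
        refine Finset.sum_congr rfl fun x _ => ?_
        rw [Finset.sum_mul]
        refine Finset.sum_congr rfl fun y _ => ?_
        have h1 := hmiss x y
        simp only [hRR, hw, Sum.elim_inl]
        by_cases hm : Miss x y
        · rw [if_neg (h1.mpr hm)]
          by_cases hr : rich x y
          · rw [if_pos hr, if_pos ⟨hr, hm⟩, one_mul]
          · rw [if_neg hr, if_neg (fun h => hr h.1), zero_mul]
        · have h2 : ∃ z ∈ X, z ∈ R x y := by
            by_contra hc
            exact hm (h1.mp hc)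
          rw [if_pos h2, if_neg (fun h => hm h.2), zero_mul]
      have e2 : (∑ x : V, ∑ y : V, (if rich x y ∧ Miss x y then (1 : ℝ) else 0)) * (1 / n ^ 2) ≤
          2 * τ := by
        rw [← e1]
        linarith
      rw [mul_one_div, div_le_iff₀ (by positivity)] at e2
      exact e2
    have hA1 : ∑ x : V, (if rich x x ∧ Miss x x then (1 : ℝ) else 0) ≤ 2 * τ * n := by
      have e1 : ∑ a : V, (if ∃ x ∈ X, x ∈ RR (Sum.inr a) then 0 else w (Sum.inr a)) =
          (∑ x : V, (if rich x x ∧ Miss x x then (1 : ℝ) else 0)) * (1 / n) := by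
        rw [Finset.sum_mul]
        refine Finset.sum_congr rfl fun x _ => ?_
        have h1 := hmiss x x
        simp only [hRR, hw, Sum.elim_inr]
        by_cases hm : Miss x x
        · rw [if_neg (h1.mpr hm)]
          by_cases hr : rich x x
          · rw [if_pos hr, if_pos ⟨hr, hm⟩, one_mul]
          · rw [if_neg hr, if_neg (fun h => hr h.1), zero_mul]
        · have h2 : ∃ z ∈ X, z ∈ R x x := by
            by_contra hc
            exact hm (h1.mp hc)
          rw [if_pos h2, if_neg (fun h => hm h.2), zero_mul]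
      have e2 : (∑ x : V, (if rich x x ∧ Miss x x then (1 : ℝ) else 0)) * (1 / n) ≤
          2 * τ := by
        rw [← e1]
        linarith
      rw [mul_one_div, div_le_iff₀ hn0] at e2
      exact e2
    -- case 1
    have hS1 : ∀ i j : Fin q,
        ∑ f : Fin q → V, (if rich (f i) (f j) ∧ Miss (f i) (f j) then (1 : ℝ) else 0) ≤
          2 * τ * n ^ q := by
      intro i j
      by_cases hij : i = j
      · subst hij
        have h1 : ∑ g : Fin 1 → V, (if rich (g 0) (g 0) ∧ Miss (g 0) (g 0) then (1 : ℝ) else 0) ≤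
            2 * τ * (Fintype.card V : ℝ) ^ 1 := by
          rw [rt_one (fun x => if rich x x ∧ Miss x x then (1 : ℝ) else 0), pow_one]
          exact hA1
        have h2 := rt_avg h_cnt q 1 ![i] (Function.injective_of_subsingleton _)
          (fun g => if rich (g 0) (g 0) ∧ Miss (g 0) (g 0) then (1 : ℝ) else 0) (2 * τ) h1
        exact h2
      · have h1 : ∑ g : Fin 2 → V, (if rich (g 0) (g 1) ∧ Miss (g 0) (g 1) then (1 : ℝ) else 0) ≤
            2 * τ * (Fintype.card V : ℝ) ^ 2 := by
          rw [rt_two (fun x y => if rich x y ∧ Miss x y then (1 : ℝ) else 0)]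
          exact hA2
        have hinj : Function.Injective ![i, j] := rt_inj2 hij
        have h2 := rt_avg h_cnt q 2 ![i, j] hinj
          (fun g => if rich (g 0) (g 1) ∧ Miss (g 0) (g 1) then (1 : ℝ) else 0) (2 * τ) h1
        exact h2
    -- case 2
    have hin : ∀ x y : V, ∑ z : V, (if ¬ rich x y ∧ G.Adj z x ∧ G.Adj y z then (1 : ℝ) else 0) ≤
        ρ * n := by
      intro x y
      by_cases hr : rich x y
      · have : ∀ z : V, (if ¬ rich x y ∧ G.Adj z x ∧ G.Adj y z then (1 : ℝ) else 0) = 0 :=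
          fun z => if_neg (fun h => h.1 hr)
        simp only [this, Finset.sum_const_zero]
        positivity
      · have h1 : ∑ z : V, (if ¬ rich x y ∧ G.Adj z x ∧ G.Adj y z then (1 : ℝ) else 0) =
            ((R x y).card : ℝ) := by
          rw [Finset.sum_boole]
          congr 2
          ext z
          simp [hR, hr]
        rw [h1]
        exact (not_le.mp hr).le
    have hS2 : ∀ i j l : Fin q,
        ∑ f : Fin q → V, (if ¬ rich (f i) (f j) ∧ G.Adj (f l) (f i) ∧ G.Adj (f j) (f l)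
          then (1 : ℝ) else 0) ≤ ρ * n ^ q := by
      intro i j l
      by_cases hli : l = i
      · subst hli
        have : ∀ f : Fin q → V, (if ¬ rich (f l) (f j) ∧ G.Adj (f l) (f l) ∧ G.Adj (f j) (f l)
          then (1 : ℝ) else 0) = 0 := fun f => if_neg (fun h => hG _ h.2.1)
        simp only [this, Finset.sum_const_zero]
        positivity
      by_cases hlj : l = j
      · subst hlj
        have : ∀ f : Fin q → V, (if ¬ rich (f i) (f l) ∧ G.Adj (f l) (f i) ∧ G.Adj (f l) (f l)
          then (1 : ℝ) else 0) = 0 := fun f => if_neg (fun h => hG _ h.2.2)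
        simp only [this, Finset.sum_const_zero]
        positivity
      by_cases hij : i = j
      · subst hij
        have h1 : ∑ g : Fin 2 → V, (if ¬ rich (g 0) (g 0) ∧ G.Adj (g 1) (g 0) ∧
            G.Adj (g 0) (g 1) then (1 : ℝ) else 0) ≤ ρ * (Fintype.card V : ℝ) ^ 2 := by
          rw [rt_two (fun x z => if ¬ rich x x ∧ G.Adj z x ∧ G.Adj x z then (1 : ℝ) else 0)]
          calc ∑ x : V, ∑ z : V, (if ¬ rich x x ∧ G.Adj z x ∧ G.Adj x z then (1 : ℝ) else 0)
              ≤ ∑ _x : V, ρ * n := Finset.sum_le_sum fun x _ => hin x x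
            _ = ρ * (Fintype.card V : ℝ) ^ 2 := by
                rw [Finset.sum_const, Finset.card_univ, nsmul_eq_mul, ← hn]
                ring
        have hinj : Function.Injective ![i, l] := rt_inj2 (fun h => hli h.symm)
        have h2 := rt_avg h_cnt q 2 ![i, l] hinj
          (fun g => if ¬ rich (g 0) (g 0) ∧ G.Adj (g 1) (g 0) ∧
            G.Adj (g 0) (g 1) then (1 : ℝ) else 0) ρ h1
        exact h2
      · have h1 : ∑ g : Fin 3 → V, (if ¬ rich (g 0) (g 1) ∧ G.Adj (g 2) (g 0) ∧
            G.Adj (g 1) (g 2) then (1 : ℝ) else 0) ≤ ρ * (Fintype.card V : ℝ) ^ 3 := by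
          rw [rt_three (fun x y z => if ¬ rich x y ∧ G.Adj z x ∧ G.Adj y z then (1 : ℝ) else 0)]
          calc ∑ x : V, ∑ y : V, ∑ z : V,
                (if ¬ rich x y ∧ G.Adj z x ∧ G.Adj y z then (1 : ℝ) else 0)
              ≤ ∑ _x : V, ∑ _y : V, ρ * n :=
                Finset.sum_le_sum fun x _ => Finset.sum_le_sum fun y _ => hin x y
            _ = ρ * (Fintype.card V : ℝ) ^ 3 := by
                rw [Finset.sum_const, Finset.sum_const, Finset.card_univ, nsmul_eq_mul,
                  nsmul_eq_mul, ← hn]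
                ring
        have hinj : Function.Injective ![i, j, l] :=
          rt_inj3 hij (fun h => hli h.symm) (fun h => hlj h.symm)
        have h2 := rt_avg h_cnt q 3 ![i, j, l] hinj
          (fun g => if ¬ rich (g 0) (g 1) ∧ G.Adj (g 2) (g 0) ∧
            G.Adj (g 1) (g 2) then (1 : ℝ) else 0) ρ h1
        exact h2
    -- together
    have hfin := rt_union (F := Fin q → V) q
      (fun f => ∃ i j l, G.Adj (f l) (f i) ∧ G.Adj (f j) (f l) ∧
        ∀ x ∈ X, ¬ (G.Adj x (f i) ∧ G.Adj (f j) x))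
      (fun i j f => rich (f i) (f j) ∧ Miss (f i) (f j))
      (fun i j l f => ¬ rich (f i) (f j) ∧ G.Adj (f l) (f i) ∧ G.Adj (f j) (f l))
      (2 * τ * n ^ q) (ρ * n ^ q)
      (by
        rintro f ⟨i, j, l, h1, h2, h3⟩
        by_cases hr : rich (f i) (f j)
        · exact Or.inl ⟨i, j, hr, h3⟩
        · exact Or.inr ⟨i, j, l, hr, h1, h2⟩)
      (fun i j => by convert hS1 i j) (fun i j l => by convert hS2 i j l)
    refine hfin.trans (le_of_eq ?_)
    have e1 : (q : ℝ) ^ 2 * (2 * τ) = δ / 2 := by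
      rw [hτ]
      field_simp
      ring
    have e2 : (q : ℝ) ^ 3 * ρ = δ / 2 := by
      rw [hρ]
      field_simp
    calc (q : ℝ) ^ 2 * (2 * τ * n ^ q) + (q : ℝ) ^ 3 * (ρ * n ^ q)
        = ((q : ℝ) ^ 2 * (2 * τ)) * n ^ q + ((q : ℝ) ^ 3 * ρ) * n ^ q := by ring
      _ = δ * n ^ q := by rw [e1, e2]; ring

end Pool.Agent.MP_278fbd_co.HR
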