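import Pool.Agent.Lib.MP_278fbd_co.HR.Stm

set_option autoImplicit false

namespace Pool.Agent.MP_278fbd_co.HR

theorem p_sw (h_ci : S_ci) (h_ic : S_ic) : S_sw := by
  intro V _ G C x hC hx
  obtain ⟨l, ⟨hne, hnd, hch⟩, hl⟩ := h_ic V G C x hC hx
  have hp : l.head hne ∈ C.erase x := by
    rw [← hl, List.mem_toFinset]
    exact List.head_mem hne
  have hp' : l.getLast hne ∈ C.erase x := by
    rw [← hl, List.mem_toFinset]
    exact List.getLast_mem hne
  have hch1 : (l ++ [x]).IsChain G.Adj := hch.of_cons
  have hxp : G.Adj x (l.head hne) := by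
    rcases l with _ | ⟨a, l⟩
    · exact absurd rfl hne
    · rw [List.cons_append, List.isChain_cons_cons] at hch
      exact hch.1
  have hpx : G.Adj (l.getLast hne) x := by
    have h := (List.isChain_append.1 hch1).2.2
    exact h (l.getLast hne) (List.getLast_mem_getLast? hne) x (by simp)
  have hll : l.IsChain G.Adj := (List.isChain_append.1 hch1).1
  refine ⟨_, hp, _, hp', hxp, hpx, ?_⟩
  intro x' hx' h1 h2
  rw [← hl] at hx' ⊢
  apply h_ci
  rw [List.mem_toFinset] at hx'
  refine ⟨hne, List.nodup_cons.2 ⟨hx', (List.nodup_cons.1 hnd).2⟩, ?_⟩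
  rw [List.isChain_cons]
  refine ⟨?_, ?_⟩
  · intro y hy
    rcases l with _ | ⟨a, l⟩
    · exact absurd rfl hne
    · simp only [List.cons_append, List.head?_cons, Option.mem_def, Option.some.injEq] at hy
      rw [← hy]
      exact h1
  · rw [List.isChain_append]
    refine ⟨hll, List.isChain_singleton _, ?_⟩
    intro a ha b hb
    rw [List.getLast?_eq_getLast_of_ne_nil hne, Option.mem_def, Option.some.injEq] at ha
    simp only [List.head?_cons, Option.mem_def, Option.some.injEq] at hb
    rw [← ha, ← hb]
    exact h2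

end Pool.Agent.MP_278fbd_co.HR
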