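import Pool.Agent.Lib.MP_278fbd_co.HR.Stm

/-!
# [th] Theorem 1 in the dual form
-/

set_option autoImplicit false

namespace Pool.Agent.MP_278fbd_co.HR

private theorem th_main (h_ax : S_ax) (h_av : S_av) (h_gr : S_gr) (n : ℕ) :
    ∀ (V : Type) [Fintype V] [Nonempty V] (G : Digraph V), (∀ v, ¬ G.Adj v v) →
    ∀ r : ℕ, (∀ v, r ≤ {w | G.Adj v w}.ncard) →
      ∀ z : V → ℝ, (∀ v, 0 ≤ z v) → (∀ x l, CycL G x l → 1 ≤ (l.map z).sum) →
        Fintype.card V = n → (r : ℝ) ≤ 2 * Real.log 2 * ∑ v, z v := by
  induction n using Nat.strong_induction_on with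
  | _ n ih =>
    intro V _ _ G hG r hr z hz hc hn
    classical
    have hκ : 0 ≤ 2 * Real.log 2 := by
      have := Real.log_nonneg (x := 2) (by norm_num)
      linarith
    obtain ⟨a, ha⟩ := h_ax V G z hG hz hc
    obtain ⟨v, hv⟩ := h_av V G z a hz ha
    obtain ⟨t, ht0, ht1, ht⟩ := h_gr V z (a v) hz (ha.nn v) hv
    have hFF0 : 0 ≤ FF z (a v) t :=
      Finset.sum_nonneg fun u _ => le_min (hz u) (le_max_left _ _)
    by_cases hrS : r ≤ (SS z (a v) t).ncard
    · calc (r : ℝ) ≤ ((SS z (a v) t).ncard : ℝ) := by exact_mod_cast hrS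
        _ ≤ 2 * Real.log 2 * ((∑ u, z u) - FF z (a v) t) := ht
        _ ≤ 2 * Real.log 2 * ∑ v, z v := by
          apply mul_le_mul_of_nonneg_left _ hκ
          linarith
    · push Not at hrS
      obtain ⟨B, hB⟩ : ∃ B : Finset V, B = Finset.univ.filter fun u => a v u + z u ≤ t :=
        ⟨_, rfl⟩
      have hBm : ∀ u, u ∈ B ↔ a v u + z u ≤ t := by
        intro u
        rw [hB]
        simp
      have hvB : v ∉ B := by
        rw [hBm]
        have h1 := ha.self v
        have h2 := hz v
        intro h
        linarith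
      have hsplit : ∀ w, a v w ≤ t → w ∈ B ∨ w ∈ SS z (a v) t := by
        intro w hw
        by_cases h : a v w + z w ≤ t
        · exact Or.inl ((hBm w).2 h)
        · exact Or.inr ⟨hw, lt_of_not_ge h⟩
      have hcount : ∀ u, (∀ w, G.Adj u w → a v w ≤ t) →
          r - (SS z (a v) t).ncard ≤ {w | G.Adj u w ∧ w ∈ B}.ncard := by
        intro u hu
        have h1 : {w | G.Adj u w} ⊆ {w | G.Adj u w ∧ w ∈ B} ∪ SS z (a v) t := by
          intro w hw
          rcases hsplit w (hu w hw) with h | h
          · exact Or.inl ⟨hw, h⟩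
          · exact Or.inr h
        have h2 := Set.ncard_le_ncard h1 (Set.toFinite _)
        have h3 := Set.ncard_union_le {w | G.Adj u w ∧ w ∈ B} (SS z (a v) t)
        have h4 := hr u
        omega
      have hvout : ∀ w, G.Adj v w → a v w ≤ t := by
        intro w hw
        rw [ha.out v w hw]
        exact ht0
      have hBout : ∀ u ∈ B, ∀ w, G.Adj u w → a v w ≤ t := by
        intro u hu w hw
        exact (ha.step v u w hw).trans ((hBm u).1 hu)
      have hBne : B.Nonempty := by
        have h1 := hcount v hvout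
        have h2 : {w | G.Adj v w ∧ w ∈ B}.Nonempty := by
          apply Set.nonempty_of_ncard_ne_zero
          omega
        obtain ⟨w, hw⟩ := h2
        exact ⟨w, hw.2⟩
      obtain ⟨u0, hu0⟩ := hBne
      have hne : Nonempty ↥B := ⟨⟨u0, hu0⟩⟩
      have hcard : Fintype.card ↥B < n := by
        rw [Fintype.card_coe, ← hn]
        exact Finset.card_lt_univ_of_notMem hvB
      obtain ⟨G', hG'⟩ : ∃ G' : Digraph ↥B, ∀ u w : ↥B, G'.Adj u w ↔ G.Adj u.1 w.1 :=
        ⟨{ Adj := fun u w => G.Adj u.1 w.1 }, fun u w => Iff.rfl⟩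
      have h1 := ih _ hcard ↥B G' (fun u hu => hG u.1 ((hG' u u).1 hu))
        (r - (SS z (a v) t).ncard) (by
          intro u
          have h2 := hcount u.1 (hBout u.1 u.2)
          have h3 : Subtype.val '' {w : ↥B | G'.Adj u w} = {w | G.Adj u.1 w ∧ w ∈ B} := by
            ext w
            constructor
            · rintro ⟨w', hw', rfl⟩
              exact ⟨(hG' u w').1 hw', w'.2⟩
            · rintro ⟨hw1, hw2⟩
              exact ⟨⟨w, hw2⟩, (hG' u ⟨w, hw2⟩).2 hw1, rfl⟩
          rw [← h3, Set.ncard_image_of_injective _ Subtype.val_injective] at h2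
          exact h2)
        (fun u => z u.1) (fun u => hz u.1) (by
          intro x l hl
          have h2 : CycL G x.1 (l.map Subtype.val) := by
            obtain ⟨c1, c2, c3⟩ := hl
            refine ⟨fun h0 => c1 (List.map_eq_nil_iff.1 h0), ?_, ?_⟩
            · have h7 := c2.map (f := (Subtype.val : ↥B → V)) Subtype.val_injective
              rw [List.map_cons] at h7
              exact h7
            · have h5 : (x :: (l ++ [x])).IsChain (fun u w : ↥B => G.Adj u.1 w.1) :=
                c3.imp fun u w h => (hG' u w).1 h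
              have h6 : ((x :: (l ++ [x])).map (Subtype.val : ↥B → V)).IsChain G.Adj :=
                (List.isChain_map _).2 h5
              rw [List.map_cons, List.map_append, List.map_cons, List.map_nil] at h6
              exact h6
          have h3 := hc _ _ h2
          rw [List.map_map] at h3
          exact h3) rfl
      have h2 : (∑ u : ↥B, z u.1) ≤ FF z (a v) t := by
        rw [Finset.sum_coe_sort B z]
        calc ∑ u ∈ B, z u = ∑ u ∈ B, min (z u) (max 0 (t - a v u)) := by
              refine Finset.sum_congr rfl fun u hu => ?_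
              have h3 := (hBm u).1 hu
              rw [min_eq_left]
              exact le_max_of_le_right (by linarith)
          _ ≤ FF z (a v) t := by
              unfold FF
              exact Finset.sum_le_sum_of_subset_of_nonneg (Finset.subset_univ _)
                fun u _ _ => le_min (hz u) (le_max_left _ _)
      have h3 : ((r - (SS z (a v) t).ncard : ℕ) : ℝ) = (r : ℝ) - ((SS z (a v) t).ncard : ℝ) := by
        rw [Nat.cast_sub hrS.le]
      rw [h3] at h1
      have h4 : 2 * Real.log 2 * (∑ u : ↥B, z u.1) ≤ 2 * Real.log 2 * FF z (a v) t :=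
        mul_le_mul_of_nonneg_left h2 hκ
      linarith

theorem p_th (h_ax : S_ax) (h_av : S_av) (h_gr : S_gr) : S_th := by
  intro V _ _ G hG r hr z hz hc
  have h := th_main h_ax h_av h_gr (Fintype.card V) V G hG r hr z hz hc rfl
  have hlog : 0 < Real.log 2 := Real.log_pos (by norm_num)
  rw [one_div, inv_mul_le_iff₀ (by linarith)]
  exact h

end Pool.Agent.MP_278fbd_co.HR
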