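import Pool.Agent.Lib.MP_278fbd_co.HR.Stm

/-!
# [yf] The weights of one good sample
-/

set_option autoImplicit false

namespace Pool.Agent.MP_278fbd_co.HR

theorem p_yf (h_sw : S_sw) (h_sub : S_sub) : S_yf := by
  intro c hc hF q β e hq he V _ _ G X f hG hgood
  obtain ⟨H, hH⟩ : ∃ H : Digraph (Fin q), ∀ i j : Fin q, H.Adj i j ↔ G.Adj (f i) (f j) :=
    ⟨{ Adj := fun i j => G.Adj (f i) (f j) }, fun i j => Iff.rfl⟩
  have hq' : (0 : ℝ) < q := by exact_mod_cast hq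
  classical
  obtain ⟨I, hI⟩ : ∃ I : Finset (Fin q), I = Finset.univ.filter fun i : Fin q =>
      β * q ≤ (({j : Fin q | G.Adj (f i) (f j)}.ncard : ℕ) : ℝ) := ⟨_, rfl⟩
  have hIm : ∀ i, i ∈ I ↔ β * q ≤ (({j : Fin q | G.Adj (f i) (f j)}.ncard : ℕ) : ℝ) := by
    intro i
    rw [hI]
    simp
  obtain ⟨J, hJ⟩ : ∃ J : Set (Fin q), J = {i : Fin q |
      (({j : Fin q | G.Adj (f i) (f j)}.ncard : ℕ) : ℝ) < β * q} := ⟨_, rfl⟩
  have hJm : ∀ i, i ∈ J ↔ i ∉ I := by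
    intro i
    rw [hJ, hIm, not_le]
    exact Iff.rfl
  have hdeg : (J.ncard : ℝ) ≤ e * q := by
    rw [hJ]
    exact hgood.deg
  have hIne : I.Nonempty := by
    by_contra hne
    rw [Finset.not_nonempty_iff_eq_empty] at hne
    have h1 : J = Set.univ := by
      ext i
      rw [hJm, hne]
      simp
    rw [h1, Set.ncard_univ, Nat.card_eq_fintype_card, Fintype.card_fin] at hdeg
    nlinarith
  have hr : ∀ i ∈ I, ⌈(β - e) * q⌉₊ ≤ {w | w ∈ I ∧ H.Adj i w}.ncard := by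
    intro i hi
    rw [Nat.ceil_le]
    have h1 := (hIm i).1 hi
    have h2 : {j : Fin q | G.Adj (f i) (f j)} ⊆ {w | w ∈ I ∧ H.Adj i w} ∪ J := by
      intro j hj
      by_cases hjI : j ∈ I
      · exact Or.inl ⟨hjI, (hH i j).2 hj⟩
      · exact Or.inr ((hJm j).2 hjI)
    have h3 := Set.ncard_le_ncard h2 (Set.toFinite _)
    have h4 := Set.ncard_union_le {w | w ∈ I ∧ H.Adj i w} J
    have h5 : (({j : Fin q | G.Adj (f i) (f j)}.ncard : ℕ) : ℝ) ≤
        ({w | w ∈ I ∧ H.Adj i w}.ncard : ℝ) + (J.ncard : ℝ) := by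
      exact_mod_cast h3.trans h4
    linarith
  obtain ⟨y, y1, y2, y3, y4⟩ := h_sub c hF (Fin q) H I _ hIne
    (fun i hi => hG (f i) ((hH i i).1 hi)) hr
  refine ⟨y, y1, ?_, y3, ?_⟩
  · intro C l hy
    obtain ⟨hcyc, hl, -⟩ := y2 C l hy
    obtain ⟨k, g, hk, hg, hrange, hadj⟩ := hcyc
    have hcard : C.card = k := by
      have h1 : C = Finset.univ.image g := by
        rw [← Finset.coe_inj, Finset.coe_image, Finset.coe_univ, Set.image_univ, hrange]
      rw [h1, Finset.card_image_of_injective _ hg, Finset.card_univ, Fintype.card_fin]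
    have hcyc' : IsCyc G (C.image f) := by
      refine ⟨k, f ∘ g, hk, hgood.inj.comp hg, ?_, fun i => (hH _ _).1 (hadj i)⟩
      rw [Set.range_comp, hrange, Finset.coe_image]
    obtain ⟨p, hp, p', hp', h1, h2, h3⟩ := h_sw V G (C.image f) (f l) hcyc'
      (Finset.mem_image_of_mem f hl)
    obtain ⟨i, -, rfl⟩ := Finset.mem_image.1 (Finset.mem_of_mem_erase hp)
    obtain ⟨j, -, rfl⟩ := Finset.mem_image.1 (Finset.mem_of_mem_erase hp')
    obtain ⟨x, hxX, hx1, hx2⟩ := hgood.root i j l h1 h2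
    refine ⟨hl, by omega, x, hxX, ?_⟩
    rw [Finset.image_erase hgood.inj]
    refine h3 x ?_ hx1 hx2
    intro hx
    obtain ⟨m, -, rfl⟩ := Finset.mem_image.1 (Finset.mem_of_mem_erase hx)
    exact hgood.avoid m hxX
  · calc c * ((β - e) * q) ≤ c * (⌈(β - e) * q⌉₊ : ℝ) :=
        mul_le_mul_of_nonneg_left (Nat.le_ceil _) hc
      _ ≤ _ := y4

end Pool.Agent.MP_278fbd_co.HR
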