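import Pool.Agent.Lib.MP_278fbd_co.HR.Stm

/-!
# MP_278fbd_co, project HR, piece bl: blow-ups
-/

set_option autoImplicit false

namespace Pool.Agent.MP_278fbd_co.HR

open Finset

/-- the blow-up -/
private def bl_G {V : Type} (G : Digraph V) (m : ℕ) : Digraph (V × Fin m) where
  Adj p q := G.Adj p.1 q.1

private lemma bl_deg {V : Type} [Fintype V] (G : Digraph V) (m r : ℕ)
    (hr : ∀ v, r ≤ {w | G.Adj v w}.ncard) (p : V × Fin m) :
    r * m ≤ {w | (bl_G G m).Adj p w}.ncard := by
  have h1 : {w : V × Fin m | (bl_G G m).Adj p w} = {w | G.Adj p.1 w} ×ˢ (Set.univ : Set (Fin m)) := by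
    ext w
    simp [bl_G]
  rw [h1, Set.ncard_prod, Set.ncard_univ, Nat.card_fin]
  exact Nat.mul_le_mul_right m (hr p.1)

private lemma bl_cost (h_ic : S_ic) (h_cw : S_cw) {V : Type} (G : Digraph V)
    (hG : ∀ v, ¬ G.Adj v v) (m : ℕ) (z : V → ℝ) (hz : ∀ v, 0 ≤ z v)
    (hc : ∀ x l, CycL G x l → 1 ≤ (l.map z).sum) [DecidableEq (V × Fin m)]
    (C : Finset (V × Fin m)) (hC : IsCyc (bl_G G m) C) (x : V × Fin m) (hx : x ∈ C) :
    1 ≤ ∑ w ∈ C.erase x, z w.1 := by
  obtain ⟨l, ⟨_, hnd, hch⟩, hl⟩ := h_ic (V × Fin m) (bl_G G m) C x hC hx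
  have h1 : (x.1 :: ((l.map Prod.fst) ++ [x.1])).IsChain G.Adj := by
    have h2 : (List.map Prod.fst (x :: (l ++ [x]))).IsChain G.Adj := by
      rw [List.isChain_map]
      exact hch
    simpa using h2
  have h3 := h_cw V G z hG hz hc (l.map Prod.fst) x.1 h1
  rw [← hl, List.sum_toFinset _ (List.nodup_cons.1 hnd).2]
  rw [List.map_map] at h3
  exact h3

theorem p_bl (h_ic : S_ic) (h_cw : S_cw) : S_bl := by
  classical
  intro c hA V _ _ G hG r hr z hz hc
  have hM0 : 0 ≤ ∑ v, z v := Finset.sum_nonneg fun v _ => hz v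
  rcases Nat.eq_zero_or_pos r with hr0 | hr0
  · subst hr0
    simpa using hM0
  have hrR : (0 : ℝ) < (r : ℝ) := by exact_mod_cast hr0
  have hN : 0 < Fintype.card V := Fintype.card_pos
  have hNR : (0 : ℝ) < (Fintype.card V : ℝ) := by exact_mod_cast hN
  refine le_of_forall_pos_le_add fun δ hδ => ?_
  obtain ⟨n₀, hn₀⟩ := hA ((r : ℝ) / Fintype.card V) (by positivity) (δ / r) (by positivity)
  set m : ℕ := n₀ + 1 with hm
  have hmR : (0 : ℝ) < (m : ℝ) := by rw [hm]; positivity
  have hcard : Fintype.card (V × Fin m) = Fintype.card V * m := by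
    rw [Fintype.card_prod, Fintype.card_fin]
  obtain ⟨k, C, hk, hCyc, hsh⟩ := hn₀ (V × Fin m) (bl_G G m) (fun p => hG p.1)
    (by
      rw [hcard]
      calc n₀ ≤ m := by omega
        _ = 1 * m := (one_mul m).symm
        _ ≤ Fintype.card V * m := Nat.mul_le_mul_right m hN)
    (r * m) (by
      rw [hcard]
      push_cast
      apply le_of_eq
      field_simp) (bl_deg G m r hr)
  -- the new vertices of the cycles
  set N : Fin k → Finset (V × Fin m) := fun l => (C l).filter (fun w => ∀ i, i < l → w ∉ C i)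
    with hNd
  have hdisj : ∀ l ∈ (univ : Finset (Fin k)), ∀ l' ∈ (univ : Finset (Fin k)), l ≠ l' →
      Disjoint (N l) (N l') := by
    intro l _ l' _ hne
    rw [Finset.disjoint_left]
    intro w hw hw'
    rw [hNd] at hw hw'
    simp only [Finset.mem_filter] at hw hw'
    rcases lt_or_gt_of_ne hne with h | h
    · exact hw'.2 l h hw.1
    · exact hw.2 l' h hw'.1
  have hone : ∀ l : Fin k, 1 ≤ ∑ w ∈ N l, z w.1 := by
    intro l
    obtain ⟨x, hx, hsub⟩ : ∃ x ∈ C l, (C l).erase x ⊆ N l := by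
      by_cases hex : ∃ a ∈ C l, ∃ i, i < l ∧ a ∈ C i
      · obtain ⟨a, ha, i, hi, hai⟩ := hex
        refine ⟨a, ha, fun w hw => ?_⟩
        rw [Finset.mem_erase] at hw
        rw [hNd]
        simp only [Finset.mem_filter]
        refine ⟨hw.2, fun j hj hwj => hw.1 ?_⟩
        have hfin : ((C l : Set (V × Fin m)) ∩ ⋃ i : Fin k, ⋃ (_ : i < l),
          (C i : Set (V × Fin m))).Finite := (C l).finite_toSet.inter_of_left _
        refine (Set.ncard_le_one hfin).1 (hsh l) w ?_ a ?_
        · refine ⟨hw.2, ?_⟩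
          simp only [Set.mem_iUnion]
          exact ⟨j, hj, hwj⟩
        · refine ⟨ha, ?_⟩
          simp only [Set.mem_iUnion]
          exact ⟨i, hi, hai⟩
      · obtain ⟨k', f, hk', _, hf, _⟩ := hCyc l
        have hx : f ⟨0, by omega⟩ ∈ C l := by
          have : f ⟨0, by omega⟩ ∈ (C l : Set (V × Fin m)) := by
            rw [← hf]
            exact Set.mem_range_self _
          exact this
        refine ⟨_, hx, fun w hw => ?_⟩
        rw [Finset.mem_erase] at hw
        rw [hNd]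
        simp only [Finset.mem_filter]
        refine ⟨hw.2, fun j hj hwj => hex ⟨w, hw.2, j, hj, hwj⟩⟩
    refine (bl_cost h_ic h_cw G hG m z hz hc (C l) (hCyc l) x hx).trans ?_
    exact Finset.sum_le_sum_of_subset_of_nonneg hsub fun w _ _ => hz w.1
  have hsum : (k : ℝ) ≤ m * ∑ v, z v := by
    calc (k : ℝ) = ∑ _l : Fin k, (1 : ℝ) := by simp
      _ ≤ ∑ l : Fin k, ∑ w ∈ N l, z w.1 := Finset.sum_le_sum fun l _ => hone l
      _ = ∑ w ∈ (univ : Finset (Fin k)).biUnion N, z w.1 := by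
        rw [Finset.sum_biUnion]
        intro l _ l' _ hne
        exact hdisj l (mem_univ _) l' (mem_univ _) hne
      _ ≤ ∑ w : V × Fin m, z w.1 :=
        Finset.sum_le_sum_of_subset_of_nonneg (Finset.subset_univ _) fun w _ _ => hz w.1
      _ = m * ∑ v, z v := by
        rw [Fintype.sum_prod_type]
        simp only [Finset.sum_const, Finset.card_univ, Fintype.card_fin, nsmul_eq_mul]
        rw [Finset.mul_sum]
  have h1 : (c - δ / r) * ((r * m : ℕ) : ℝ) ≤ m * ∑ v, z v := hk.trans hsum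
  have h2 : (c - δ / r) * ((r * m : ℕ) : ℝ) = m * (c * r - δ) := by
    push_cast
    field_simp
  rw [h2] at h1
  have h3 := le_of_mul_le_mul_left h1 hmR
  linarith

end Pool.Agent.MP_278fbd_co.HR
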