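import Pool.Agent.Lib.MP_278fbd_co.HR.Stm

/-!
# MP_278fbd_co, project HR: piece [ci]

From a list to the vertex set of a cycle.
-/

set_option autoImplicit false

namespace Pool.Agent.MP_278fbd_co.HR

theorem p_ci : S_ci := by
  intro V _ G x l hl
  obtain ⟨h0, hnd, hch⟩ := hl
  have hlen : 1 ≤ l.length := Nat.one_le_iff_ne_zero.2 (fun h => h0 (List.length_eq_zero_iff.1 h))
  rw [List.isChain_iff_getElem] at hch
  refine ⟨l.length + 1, (x :: l).get, by omega, List.nodup_iff_injective_get.1 hnd, ?_, ?_⟩
  · have h1 := Set.range_list_get (x :: l)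
    refine h1.trans ?_
    ext y
    simp
  · intro i
    obtain ⟨i, hi⟩ := i
    rcases Nat.lt_or_ge i l.length with h | h
    · have h2 : finRotate (l.length + 1) ⟨i, hi⟩ = ⟨i + 1, by omega⟩ := finRotate_of_lt h
      rw [h2]
      have h3 := hch i (by simp; omega)
      have h4 : (x :: (l ++ [x]))[i]'(by simp; omega) = (x :: l)[i]'(by simpa using hi) := by
        have : (x :: (l ++ [x])) = (x :: l) ++ [x] := rfl
        simp only [this]
        exact List.getElem_append_left _
      have h5 : (x :: (l ++ [x]))[i + 1]'(by simp; omega) = (x :: l)[i + 1]'(by simp; omega) := by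
        have : (x :: (l ++ [x])) = (x :: l) ++ [x] := rfl
        simp only [this]
        exact List.getElem_append_left _
      rw [h4, h5] at h3
      exact h3
    · have h1 : i = l.length := by omega
      subst h1
      have h2 : finRotate (l.length + 1) ⟨l.length, hi⟩ = ⟨0, by omega⟩ := finRotate_last'
      rw [h2]
      have h3 := hch l.length (by simp)
      have h4 : (x :: (l ++ [x]))[l.length]'(by simp) = (x :: l)[l.length]'(by simp) := by
        have : (x :: (l ++ [x])) = (x :: l) ++ [x] := rfl
        simp only [this]
        exact List.getElem_append_left _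
      have h5 : (x :: (l ++ [x]))[l.length + 1]'(by simp) = x := by
        simp
      rw [h4, h5] at h3
      exact h3

end Pool.Agent.MP_278fbd_co.HR
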