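import Pool.Agent.Lib.MP_278fbd_co.HR.Stm

/-!
# MP_278fbd_co, project HR, piece sub: the fractional form inside a set of vertices
-/

set_option autoImplicit false

namespace Pool.Agent.MP_278fbd_co.HR

open Finset

/-- sums over pairs supported on a subset -/
theorem sub_sum {A : Type} [Fintype A] [DecidableEq A] (I : Finset A) (g : Finset A → A → ℝ)
    (hg : ∀ C x, g C x ≠ 0 → C ⊆ I ∧ x ∈ I) :
    ∑ C : Finset ↥I, ∑ x : ↥I, g (C.map (Function.Embedding.subtype _)) x.1 =
      ∑ C : Finset A, ∑ x : A, g C x := by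
  refine Finset.sum_of_injOn (fun C : Finset ↥I => C.map (Function.Embedding.subtype _)) ?_ ?_ ?_ ?_
  · intro C _ C' _ h
    exact Finset.map_injective _ h
  · intro C _
    exact Finset.mem_coe.mpr (mem_univ _)
  · intro C _ hC
    refine Finset.sum_eq_zero fun x _ => ?_
    by_contra hne
    apply hC
    refine ⟨C.subtype (· ∈ I), by simp, ?_⟩
    show (C.subtype (· ∈ I)).map (Function.Embedding.subtype _) = C
    rw [Finset.subtype_map]
    exact Finset.filter_true_of_mem (hg C x hne).1
  · intro C _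
    refine Finset.sum_of_injOn (fun x : ↥I => x.1) ?_ ?_ ?_ ?_
    · intro x _ x' _ h
      exact Subtype.ext h
    · intro x _
      exact Finset.mem_coe.mpr (mem_univ _)
    · intro x _ hx
      by_contra hne
      exact hx ⟨⟨x, (hg _ x hne).2⟩, by simp, rfl⟩
    · intro x _
      rfl

theorem p_sub : S_sub := by
  intro c hc A _ _ G I r hI hG hr
  classical
  have : Nonempty ↥I := hI.to_subtype
  let G' : Digraph ↥I := ⟨fun i j => G.Adj i.1 j.1⟩
  have hG' : ∀ v, ¬ G'.Adj v v := fun v => hG v.1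
  have hr' : ∀ v, r ≤ {w | G'.Adj v w}.ncard := by
    intro v
    refine (hr v.1 v.2).trans (le_of_eq ?_)
    rw [← Set.ncard_image_of_injective {w : ↥I | G'.Adj v w} Subtype.val_injective]
    congr 1
    ext w
    constructor
    · rintro ⟨h1, h2⟩
      exact ⟨⟨w, h1⟩, h2, rfl⟩
    · rintro ⟨w', h1, rfl⟩
      exact ⟨w'.2, h1⟩
  obtain ⟨y', h0, h1, h2, h3⟩ := hc ↥I G' hG' r hr'
  let y : Finset A → A → ℝ := fun C x =>
    if h : C ⊆ I ∧ x ∈ I then y' (C.subtype (· ∈ I)) ⟨x, h.2⟩ else 0
  have hy : ∀ (C : Finset ↥I) (x : ↥I), y (C.map (Function.Embedding.subtype _)) x.1 = y' C x := by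
    intro C x
    have hs : C.map (Function.Embedding.subtype _) ⊆ I := by
      intro a ha
      obtain ⟨b, -, rfl⟩ := Finset.mem_map.mp ha
      exact b.2
    show (if h : _ ∧ _ then _ else _) = _
    rw [dif_pos ⟨hs, x.2⟩]
    have e1 : (C.map (Function.Embedding.subtype _)).subtype (· ∈ I) = C := by
      ext b
      simp
    rw [e1]
  refine ⟨y, ?_, ?_, ?_, ?_⟩
  · intro C x
    show 0 ≤ (if h : _ ∧ _ then _ else _)
    split
    · exact h0 _ _
    · exact le_rfl
  · intro C x hne
    have hcx : C ⊆ I ∧ x ∈ I := by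
      by_contra hcon
      exact hne (dif_neg hcon)
    have hne' : y' (C.subtype (· ∈ I)) ⟨x, hcx.2⟩ ≠ 0 := by
      have e : y C x = y' (C.subtype (· ∈ I)) ⟨x, hcx.2⟩ := dif_pos hcx
      rwa [e] at hne
    obtain ⟨⟨k, f, hk, hf, hrg, hadj⟩, hx⟩ := h1 _ _ hne'
    refine ⟨⟨k, fun i => (f i).1, hk, Subtype.val_injective.comp hf, ?_, hadj⟩, ?_, hcx.1⟩
    · have e2 : Set.range (fun i => (f i).1) = Subtype.val '' Set.range f := by
        rw [← Set.range_comp]; rfl
      rw [e2, hrg]
      ext a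
      constructor
      · rintro ⟨b, hb, rfl⟩
        simpa using hb
      · intro ha
        exact ⟨⟨a, hcx.1 ha⟩, by simpa using ha, rfl⟩
    · simpa using hx
  · intro v
    by_cases hv : v ∈ I
    · have hs := sub_sum I (fun C x => if v ∈ C ∧ v ≠ x then y C x else 0) (by
        intro C x hne
        by_contra hcon
        apply hne
        have : y C x = 0 := dif_neg hcon
        simp [this])
      rw [← hs]
      refine le_trans (le_of_eq ?_) (h2 ⟨v, hv⟩)
      refine Finset.sum_congr rfl fun C _ => Finset.sum_congr rfl fun x _ => ?_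
      simp only [hy]
      have e : (v ∈ C.map (Function.Embedding.subtype _) ∧ v ≠ x.1) ↔
          ((⟨v, hv⟩ : ↥I) ∈ C ∧ (⟨v, hv⟩ : ↥I) ≠ x) := by
        constructor
        · rintro ⟨a1, a2⟩
          refine ⟨by obtain ⟨b, hb, hbe⟩ := Finset.mem_map.mp a1; exact (Subtype.ext hbe : b = ⟨v, hv⟩) ▸ hb, ?_⟩
          intro h
          exact a2 (congrArg Subtype.val h)
        · rintro ⟨a1, a2⟩
          refine ⟨Finset.mem_map.mpr ⟨⟨v, hv⟩, a1, rfl⟩, ?_⟩
          intro h
          exact a2 (Subtype.ext h)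
      simp only [e]
    · refine le_trans (le_of_eq ?_) zero_le_one
      refine Finset.sum_eq_zero fun C _ => Finset.sum_eq_zero fun x _ => ?_
      by_cases hvC : v ∈ C ∧ v ≠ x
      · rw [if_pos hvC]
        exact dif_neg fun h => hv (h.1 hvC.1)
      · rw [if_neg hvC]
  · have hs := sub_sum I (fun C x => y C x) (by
      intro C x hne
      by_contra hcon
      exact hne (dif_neg hcon))
    rw [← hs]
    refine h3.trans (le_of_eq ?_)
    exact Finset.sum_congr rfl fun C _ => Finset.sum_congr rfl fun x _ => (hy C x).symm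

end Pool.Agent.MP_278fbd_co.HR
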